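import Mathlib

/-!
Regular triangulations of finite sets of integer points: optimal convex representations.
-/

set_option autoImplicit false

namespace Pool.MP_554263_co.H47

/-- the real point of an integer point -/
def toR {d : ℕ} (a : Fin d → ℤ) : Fin d → ℝ := fun i => (a i : ℝ)

theorem toR_injective {d : ℕ} : Function.Injective (toR (d := d)) := by
  intro a b h
  funext i
  have := congrFun h i
  simpa [toR] using this

variable {d : ℕ}

/-- `l` is a convex representation of `x` by the points of `A` -/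
structure IsRep (A : Finset (Fin d → ℤ)) (x : Fin d → ℝ) (l : (Fin d → ℤ) → ℝ) : Prop where
  nonneg : ∀ a, 0 ≤ l a
  off : ∀ a, a ∉ A → l a = 0
  one : ∑ a ∈ A, l a = 1
  eq : ∑ a ∈ A, l a • toR a = x

/-- the cost of a representation -/
def cost (A : Finset (Fin d → ℤ)) (w : (Fin d → ℤ) → ℝ) (l : (Fin d → ℤ) → ℝ) : ℝ :=
  ∑ a ∈ A, l a * w a

/-- `l` is a representation of `x` of minimal cost -/
structure IsOpt (A : Finset (Fin d → ℤ)) (w : (Fin d → ℤ) → ℝ) (x : Fin d → ℝ)
    (l : (Fin d → ℤ) → ℝ) : Prop where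
  rep : IsRep A x l
  le : ∀ m, IsRep A x m → cost A w l ≤ cost A w m

theorem mem_hull_iff {A : Finset (Fin d → ℤ)} {x : Fin d → ℝ} :
    x ∈ convexHull ℝ (toR '' (A : Set (Fin d → ℤ))) ↔ ∃ l, IsRep A x l := by
  classical
  constructor
  · intro h
    rw [← Finset.coe_image, Finset.mem_convexHull'] at h
    obtain ⟨w, h0, h1, h2⟩ := h
    refine ⟨fun a => if a ∈ A then w (toR a) else 0, ?_, ?_, ?_, ?_⟩
    · intro a
      split_ifs with ha
      · exact h0 _ (Finset.mem_image_of_mem _ ha)
      · exact le_rfl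
    · intro a ha
      simp [ha]
    · rw [Finset.sum_image (fun a _ b _ h => toR_injective h)] at h1
      rw [← h1]
      exact Finset.sum_congr rfl fun a ha => by simp [ha]
    · rw [Finset.sum_image (fun a _ b _ h => toR_injective h)] at h2
      rw [← h2]
      exact Finset.sum_congr rfl fun a ha => by simp [ha]
  · rintro ⟨l, h⟩
    rw [← h.eq]
    exact (convex_convexHull ℝ _).sum_mem (fun a _ => h.nonneg a) h.one
      (fun a ha => subset_convexHull ℝ _ ⟨a, ha, rfl⟩)

theorem IsRep.mono {A B : Finset (Fin d → ℤ)} {x : Fin d → ℝ} {l : (Fin d → ℤ) → ℝ}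
    (h : IsRep A x l) (hAB : A ⊆ B) : IsRep B x l where
  nonneg := h.nonneg
  off a ha := h.off a fun h' => ha (hAB h')
  one := by
    rw [← h.one]
    exact (Finset.sum_subset hAB fun a _ ha => h.off a ha).symm
  eq := by
    rw [← h.eq]
    exact (Finset.sum_subset hAB fun a _ ha => by rw [h.off a ha, zero_smul]).symm

theorem IsRep.shrink {A B : Finset (Fin d → ℤ)} {x : Fin d → ℝ} {l : (Fin d → ℤ) → ℝ}
    (h : IsRep A x l) (hBA : B ⊆ A) (hB : ∀ a, a ∉ B → l a = 0) : IsRep B x l where
  nonneg := h.nonneg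
  off := hB
  one := by
    rw [← h.one]
    exact Finset.sum_subset hBA fun a _ ha => hB a ha
  eq := by
    rw [← h.eq]
    exact Finset.sum_subset hBA fun a _ ha => by rw [hB a ha, zero_smul]

theorem cost_eq {A B : Finset (Fin d → ℤ)} {w l : (Fin d → ℤ) → ℝ} (hBA : B ⊆ A)
    (hB : ∀ a, a ∉ B → l a = 0) : cost B w l = cost A w l :=
  Finset.sum_subset hBA fun a _ ha => by rw [hB a ha, zero_mul]

theorem exists_opt {A : Finset (Fin d → ℤ)} (w : (Fin d → ℤ) → ℝ) {x : Fin d → ℝ}
    (hx : x ∈ convexHull ℝ (toR '' (A : Set (Fin d → ℤ)))) : ∃ l, IsOpt A w x l := by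
  classical
  obtain ⟨l0, h0⟩ := mem_hull_iff.1 hx
  set K : Set (A → ℝ) := {l | l ∈ stdSimplex ℝ A ∧ ∑ a : A, l a • toR (a : Fin d → ℤ) = x} with hK
  have hKc : IsCompact K := by
    have h1 : IsClosed {l : A → ℝ | ∑ a : A, l a • toR (a : Fin d → ℤ) = x} := by
      refine isClosed_eq ?_ continuous_const
      exact continuous_finsetSum _ fun a _ => (continuous_apply a).smul continuous_const
    exact (isCompact_stdSimplex ℝ A).inter_right h1
  have hext : ∀ l : A → ℝ, l ∈ K →
      IsRep A x (fun a => if h : a ∈ A then l ⟨a, h⟩ else 0) := by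
    rintro l ⟨⟨hl0, hl1⟩, hl2⟩
    refine ⟨?_, ?_, ?_, ?_⟩
    · intro a
      split_ifs with h
      · exact hl0 _
      · exact le_rfl
    · intro a ha
      simp [ha]
    · rw [← hl1, ← Finset.sum_coe_sort A]
      exact Finset.sum_congr rfl fun a _ => by simp
    · rw [← hl2, ← Finset.sum_coe_sort A]
      exact Finset.sum_congr rfl fun a _ => by simp
  have hres : ∀ m, IsRep A x m → (fun a : A => m a) ∈ K := by
    intro m hm
    refine ⟨⟨fun a => hm.nonneg _, ?_⟩, ?_⟩
    · rw [Finset.sum_coe_sort A (fun a => m a)]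
      exact hm.one
    · rw [Finset.sum_coe_sort A (fun a => m a • toR a)]
      exact hm.eq
  obtain ⟨l, hl, hmin⟩ := hKc.exists_isMinOn ⟨_, hres l0 h0⟩
    (f := fun l : A → ℝ => ∑ a : A, l a * w (a : Fin d → ℤ))
    (continuous_finsetSum _ fun a _ => (continuous_apply a).mul continuous_const).continuousOn
  refine ⟨_, hext l hl, ?_⟩
  intro m hm
  have h1 := hmin (hres m hm)
  have h2 : cost A w (fun a => if h : a ∈ A then l ⟨a, h⟩ else 0) =
      ∑ a : A, l a * w (a : Fin d → ℤ) := by
    unfold cost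
    rw [← Finset.sum_coe_sort A]
    exact Finset.sum_congr rfl fun a _ => by simp
  have h3 : cost A w m = ∑ a : A, m a * w (a : Fin d → ℤ) := by
    unfold cost
    rw [← Finset.sum_coe_sort A]
  rw [h2, h3]
  exact h1

/-- moving a representation along a dependence -/
theorem IsRep.add {A : Finset (Fin d → ℤ)} {x : Fin d → ℝ} {l m : (Fin d → ℤ) → ℝ}
    (h : IsRep A x l) (hm : ∀ a, a ∉ A → m a = 0) (hm0 : ∑ a ∈ A, m a = 0)
    (hm1 : ∑ a ∈ A, m a • toR a = 0) (hn : ∀ a, 0 ≤ l a + m a) : IsRep A x (fun a => l a + m a) where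
  nonneg := hn
  off a ha := by rw [h.off a ha, hm a ha, add_zero]
  one := by rw [Finset.sum_add_distrib, h.one, hm0, add_zero]
  eq := by simp only [add_smul]; rw [Finset.sum_add_distrib, h.eq, hm1, add_zero]

theorem cost_add (A : Finset (Fin d → ℤ)) (w l m : (Fin d → ℤ) → ℝ) :
    cost A w (fun a => l a + m a) = cost A w l + cost A w m := by
  unfold cost
  rw [← Finset.sum_add_distrib]
  exact Finset.sum_congr rfl fun a _ => by ring

theorem cost_smul (A : Finset (Fin d → ℤ)) (w m : (Fin d → ℤ) → ℝ) (c : ℝ) :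
    cost A w (fun a => c * m a) = c * cost A w m := by
  unfold cost
  rw [Finset.mul_sum]
  exact Finset.sum_congr rfl fun a _ => by ring

/-- a small positive step that keeps `l` nonnegative -/
theorem exists_step {A : Finset (Fin d → ℤ)} {l m : (Fin d → ℤ) → ℝ} (hl : ∀ a, 0 ≤ l a)
    (hlA : ∀ a, a ∉ A → l a = 0) (hm : ∀ a, l a = 0 → m a = 0) :
    ∃ ε : ℝ, 0 < ε ∧ ∀ a, |ε * m a| ≤ l a := by
  classical
  have h : ∀ᶠ ε in nhdsWithin (0 : ℝ) (Set.Ioi 0), ∀ a ∈ A, |ε * m a| ≤ l a := by
    rw [Filter.eventually_all_finset]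
    intro a _
    by_cases ha : l a = 0
    · refine Filter.Eventually.of_forall fun ε => ?_
      rw [hm a ha, ha]; simp
    · have hpos : 0 < l a := lt_of_le_of_ne (hl a) (Ne.symm ha)
      have hc : Filter.Tendsto (fun ε : ℝ => |ε * m a|) (nhdsWithin 0 (Set.Ioi 0)) (nhds 0) := by
        have : Continuous fun ε : ℝ => |ε * m a| := by fun_prop
        have h2 := this.tendsto 0
        simp only [zero_mul, abs_zero] at h2
        exact h2.mono_left nhdsWithin_le_nhds
      exact (hc.eventually (gt_mem_nhds hpos)).mono fun ε h => le_of_lt h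
  obtain ⟨ε, h1, h2⟩ := (h.and self_mem_nhdsWithin).exists
  refine ⟨ε, h2, fun a => ?_⟩
  by_cases ha : a ∈ A
  · exact h1 a ha
  · rw [hm a (hlA a ha), hlA a ha]; simp

/-- a representation supported in the support of an optimal one is optimal -/
theorem IsOpt.sub {A : Finset (Fin d → ℤ)} {w : (Fin d → ℤ) → ℝ} {x y : Fin d → ℝ}
    {l m : (Fin d → ℤ) → ℝ} (h : IsOpt A w x l) (hm : IsRep A y m)
    (hs : ∀ a, l a = 0 → m a = 0) : IsOpt A w y m := by
  refine ⟨hm, fun m' hm' => ?_⟩
  obtain ⟨ε, hε, hle⟩ := exists_step h.rep.nonneg h.rep.off hs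
  have hrep : IsRep A x (fun a => l a + ε * (m' a - m a)) := by
    refine h.rep.add ?_ ?_ ?_ ?_
    · intro a ha
      rw [hm'.off a ha, hm.off a ha]; ring
    · rw [← Finset.mul_sum, Finset.sum_sub_distrib, hm'.one, hm.one]; ring
    · have : ∀ a ∈ A, (ε * (m' a - m a)) • toR a = ε • (m' a • toR a - m a • toR a) := by
        intro a _
        rw [mul_smul, sub_smul]
      rw [Finset.sum_congr rfl this, ← Finset.smul_sum, Finset.sum_sub_distrib, hm'.eq, hm.eq,
        sub_self, smul_zero]
    · intro a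
      have h1 := hle a
      have h2 := hm'.nonneg a
      have h3 := abs_le.1 h1
      nlinarith [mul_nonneg hε.le h2]
  have h1 := h.le _ hrep
  rw [cost_add, cost_smul] at h1
  have h2 : cost A w (fun a => m' a - m a) = cost A w m' - cost A w m := by
    unfold cost
    rw [← Finset.sum_sub_distrib]
    exact Finset.sum_congr rfl fun a _ => by ring
  rw [h2] at h1
  nlinarith

/-- optimal representations are unique -/
def Uniq (A : Finset (Fin d → ℤ)) (w : (Fin d → ℤ) → ℝ) : Prop :=
  ∀ x l m, IsOpt A w x l → IsOpt A w x m → l = m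

/-- a dependence supported in the support of an optimal representation has cost zero and, if optimal
representations are unique, it is zero -/
theorem IsOpt.dep {A : Finset (Fin d → ℤ)} {w : (Fin d → ℤ) → ℝ} {x : Fin d → ℝ}
    {l m : (Fin d → ℤ) → ℝ} (h : IsOpt A w x l)
    (hs : ∀ a, l a = 0 → m a = 0) (hm0 : ∑ a ∈ A, m a = 0) (hm1 : ∑ a ∈ A, m a • toR a = 0) :
    cost A w m = 0 ∧ (Uniq A w → m = 0) := by
  obtain ⟨ε, hε, hle⟩ := exists_step h.rep.nonneg h.rep.off hs
  have key : ∀ s : ℝ, |s| = ε → IsRep A x (fun a => l a + s * m a) := by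
    intro s hsε
    refine h.rep.add ?_ ?_ ?_ ?_
    · intro a ha
      rw [hs a (h.rep.off a ha), mul_zero]
    · rw [← Finset.mul_sum, hm0, mul_zero]
    · have : ∀ a ∈ A, (s * m a) • toR a = s • (m a • toR a) := fun a _ => by rw [mul_smul]
      rw [Finset.sum_congr rfl this, ← Finset.smul_sum, hm1, smul_zero]
    · intro a
      have h1 := hle a
      rw [abs_mul, abs_of_pos hε, ← hsε, ← abs_mul] at h1
      have := abs_le.1 h1
      linarith
  have k1 := key ε (abs_of_pos hε)
  have k2 := key (-ε) (by rw [abs_neg, abs_of_pos hε])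
  have h1 := h.le _ k1
  have h2 := h.le _ k2
  rw [cost_add, cost_smul] at h1 h2
  have hc : cost A w m = 0 := by nlinarith
  refine ⟨hc, fun hu => ?_⟩
  have hopt : IsOpt A w x (fun a => l a + ε * m a) := by
    refine ⟨k1, fun m' hm' => ?_⟩
    rw [cost_add, cost_smul, hc, mul_zero, add_zero]
    exact h.le m' hm'
  have h3 := hu x _ _ h hopt
  funext a
  have h4 : l a = l a + ε * m a := congrFun h3 a
  have h5 : ε * m a = 0 := by linarith
  rcases mul_eq_zero.1 h5 with h6 | h6
  · exact absurd h6 hε.ne'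
  · exact h6

end Pool.MP_554263_co.H47
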