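import Pool.Agent.W_554263_h47.A

/-!
The triangulation given by weights with unique optimal representations.
-/

set_option autoImplicit false

namespace Pool.MP_554263_co.H47

open MeasureTheory

variable {d : ℕ}

/-- the maximal cells -/
noncomputable def cells (A : Finset (Fin d → ℤ)) (w : (Fin d → ℤ) → ℝ) :
    Finset (Finset (Fin d → ℤ)) := by
  classical
  exact A.powerset.filter fun S => S.card = d + 1 ∧ ∃ x l, IsOpt A w x l ∧ ∀ a, l a ≠ 0 ↔ a ∈ S

theorem mem_cells {A : Finset (Fin d → ℤ)} {w : (Fin d → ℤ) → ℝ} {S : Finset (Fin d → ℤ)} :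
    S ∈ cells A w ↔ S ⊆ A ∧ S.card = d + 1 ∧ ∃ x l, IsOpt A w x l ∧ ∀ a, l a ≠ 0 ↔ a ∈ S := by
  classical
  unfold cells
  rw [Finset.mem_filter, Finset.mem_powerset]

/-- the convex hull of the real points -/
def hull (S : Finset (Fin d → ℤ)) : Set (Fin d → ℝ) := convexHull ℝ (toR '' (S : Set (Fin d → ℤ)))

theorem support_indep {A : Finset (Fin d → ℤ)} {w : (Fin d → ℤ) → ℝ} (hu : Uniq A w)
    {x : Fin d → ℝ} {l : (Fin d → ℤ) → ℝ} (h : IsOpt A w x l) {S : Finset (Fin d → ℤ)}
    (hS : ∀ a, a ∈ S → l a ≠ 0) : AffineIndependent ℝ (fun s : S => toR (s : Fin d → ℤ)) := by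
  classical
  have hSA : S ⊆ A := fun a ha => by
    by_contra hn
    exact hS a ha (h.rep.off a hn)
  rw [affineIndependent_iff_of_fintype]
  intro v hv1 hv2 i
  rw [Finset.weightedVSub_eq_linear_combination _ hv1] at hv2
  set m : (Fin d → ℤ) → ℝ := fun a => if ha : a ∈ S then v ⟨a, ha⟩ else 0 with hm
  have hm0 : ∀ a, a ∉ S → m a = 0 := fun a ha => by simp [hm, ha]
  have hms : ∀ s : S, m s = v s := fun s => by simp [hm]
  have h1 : ∑ a ∈ A, m a = 0 := by
    rw [← Finset.sum_subset hSA fun a _ ha => hm0 a ha, ← Finset.sum_coe_sort S, ← hv1]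
    exact Finset.sum_congr rfl fun s _ => hms s
  have h2 : ∑ a ∈ A, m a • toR a = 0 := by
    rw [← Finset.sum_subset hSA fun a _ ha => by rw [hm0 a ha, zero_smul],
      ← Finset.sum_coe_sort S, ← hv2]
    exact Finset.sum_congr rfl fun s _ => by rw [hms s]
  have h3 := (h.dep (m := m) (fun a ha => hm0 a fun h' => hS a h' ha) h1 h2).2 hu
  rw [← hms i, h3]
  rfl

theorem volume_hull_small {S : Finset (Fin d → ℤ)} (hS : S.card ≤ d) : volume (hull S) = 0 := by
  classical
  have h1 : hull S ⊆ (affineSpan ℝ (toR '' (S : Set (Fin d → ℤ))) : Set (Fin d → ℝ)) :=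
    convexHull_subset_affineSpan _
  refine measure_mono_null h1 (Measure.addHaar_affineSubspace _ _ ?_)
  intro htop
  rcases S.eq_empty_or_nonempty with rfl | hne
  · simp at htop
  · obtain ⟨n, hn⟩ : ∃ n, S.card = n + 1 := ⟨S.card - 1, by have := hne.card_pos; omega⟩
    have h2 := finrank_vectorSpan_image_finset_le ℝ (toR (d := d)) S hn
    rw [Finset.coe_image, ← direction_affineSpan, htop, AffineSubspace.direction_top,
      finrank_top, Module.finrank_fin_fun] at h2
    omega

theorem hull_subset {S A : Finset (Fin d → ℤ)} (h : S ⊆ A) : hull S ⊆ hull A :=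
  convexHull_mono (Set.image_mono (by exact_mod_cast h))

theorem hull_isCompact (S : Finset (Fin d → ℤ)) : IsCompact (hull S) :=
  (S.finite_toSet.image toR).isCompact_convexHull (𝕜 := ℝ)

/-- representations of points of `hull S` are optimal, `S` a cell -/
theorem cell_opt {A S : Finset (Fin d → ℤ)} {w : (Fin d → ℤ) → ℝ} (hS : S ∈ cells A w)
    {x : Fin d → ℝ} {l : (Fin d → ℤ) → ℝ} (h : IsRep S x l) : IsOpt A w x l := by
  obtain ⟨hSA, -, y, m, hm, hms⟩ := mem_cells.1 hS
  refine hm.sub (h.mono hSA) fun a ha => h.off a fun h' => (hms a).2 h' ha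

theorem cells_inter {A S S' : Finset (Fin d → ℤ)} {w : (Fin d → ℤ) → ℝ} (hu : Uniq A w)
    [DecidableEq (Fin d → ℤ)] (hS : S ∈ cells A w) (hS' : S' ∈ cells A w) :
    hull S ∩ hull S' = hull (S ∩ S') := by
  apply Set.Subset.antisymm
  · rintro x ⟨h1, h2⟩
    obtain ⟨l, hl⟩ := mem_hull_iff.1 h1
    obtain ⟨m, hm⟩ := mem_hull_iff.1 h2
    have h3 := hu x l m (cell_opt hS hl) (cell_opt hS' hm)
    subst h3
    refine mem_hull_iff.2 ⟨l, hl.shrink Finset.inter_subset_left fun a ha => ?_⟩
    by_cases h4 : a ∈ S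
    · exact hm.off a fun h5 => ha (Finset.mem_inter.2 ⟨h4, h5⟩)
    · exact hl.off a h4
  · exact Set.subset_inter (hull_subset Finset.inter_subset_left)
      (hull_subset Finset.inter_subset_right)

theorem cells_cover {A : Finset (Fin d → ℤ)} {w : (Fin d → ℤ) → ℝ} (hu : Uniq A w)
    (hA : affineSpan ℝ (toR '' (A : Set (Fin d → ℤ))) = ⊤) :
    ⋃ S ∈ cells A w, hull S = hull A := by
  classical
  apply Set.Subset.antisymm
  · exact Set.iUnion₂_subset fun S hS => hull_subset (mem_cells.1 hS).1
  · set Z : Set (Fin d → ℝ) :=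
      ⋃ S ∈ {S : Finset (Fin d → ℤ) | S ⊆ A ∧ S.card ≤ d}, hull S with hZ
    have hZ0 : volume Z = 0 := by
      have hfin : {S : Finset (Fin d → ℤ) | S ⊆ A ∧ S.card ≤ d}.Finite :=
        A.powerset.finite_toSet.subset fun S hS => by
          rw [Finset.mem_coe, Finset.mem_powerset]
          exact hS.1
      rw [hZ, measure_biUnion_null_iff hfin.countable]
      intro S hS
      exact volume_hull_small hS.2
    have hW : IsClosed (⋃ S ∈ cells A w, hull S) :=
      (cells A w).finite_toSet.isClosed_biUnion fun S _ => (hull_isCompact S).isClosed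
    have h1 : hull A \ Z ⊆ ⋃ S ∈ cells A w, hull S := by
      rintro x ⟨hx, hxZ⟩
      obtain ⟨l, hl⟩ := exists_opt w hx
      set S := A.filter fun a => l a ≠ 0 with hS
      have hlS : ∀ a, l a ≠ 0 ↔ a ∈ S := by
        intro a
        rw [hS, Finset.mem_filter]
        refine ⟨fun h => ⟨?_, h⟩, fun h => h.2⟩
        by_contra hn
        exact h (hl.rep.off a hn)
      have hxS : x ∈ hull S := mem_hull_iff.2
        ⟨l, hl.rep.shrink (Finset.filter_subset _ _) fun a ha => by
          by_contra hn
          exact ha ((hlS a).1 hn)⟩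
      have hind := support_indep hu hl (S := S) fun a ha => (hlS a).2 ha
      have hc1 : S.card ≤ d + 1 := by
        have := hind.card_le_finrank_succ
        rw [Fintype.card_coe] at this
        have h2 := Submodule.finrank_le (vectorSpan ℝ (Set.range fun s : S => toR (s : Fin d → ℤ)))
        rw [Module.finrank_fin_fun] at h2
        omega
      have hSA : S ⊆ A := Finset.filter_subset _ _
      have hc2 : ¬ S.card ≤ d := fun h => hxZ (by
        rw [hZ]
        exact Set.mem_biUnion ⟨hSA, h⟩ hxS)
      have hc3 : S.card = d + 1 := by omega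
      have hSc : S ∈ cells A w := mem_cells.2 ⟨hSA, hc3, x, l, hl, hlS⟩
      exact Set.mem_biUnion hSc hxS
    have h2 : hull A ⊆ closure (hull A \ Z) := by
      intro y hy
      rw [mem_closure_iff]
      intro O hO hyO
      have hconv : Convex ℝ (hull A) := convex_convexHull ℝ _
      have hint : (interior (hull A)).Nonempty :=
        interior_convexHull_nonempty_iff_affineSpan_eq_top.2 hA
      have hcl : y ∈ closure (interior (hull A)) := by
        rw [hconv.closure_interior_eq_closure_of_nonempty_interior hint]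
        exact subset_closure hy
      obtain ⟨z, hz⟩ := mem_closure_iff.1 hcl O hO hyO
      have hopen : IsOpen (O ∩ interior (hull A)) := hO.inter isOpen_interior
      have hpos : 0 < volume (O ∩ interior (hull A)) := hopen.measure_pos _ ⟨z, hz⟩
      by_contra hne
      rw [Set.not_nonempty_iff_eq_empty] at hne
      have hsub : O ∩ interior (hull A) ⊆ Z := by
        rintro x ⟨hx1, hx2⟩
        by_contra hxZ
        have : x ∈ O ∩ (hull A \ Z) := ⟨hx1, interior_subset hx2, hxZ⟩
        rw [hne] at this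
        exact this
      exact (measure_mono_null hsub hZ0 ▸ hpos).ne' rfl
    exact h2.trans (closure_minimal h1 hW)

end Pool.MP_554263_co.H47
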