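import Pool.Agent.W_554263_h47.B

/-!
Weights without integral relations have unique optimal representations.
-/

set_option autoImplicit false

namespace Pool.MP_554263_co.H47

variable {d : ℕ}

/-- no integral affine dependence of the points of `A` is a relation of the weights -/
def Generic (A : Finset (Fin d → ℤ)) (w : (Fin d → ℤ) → ℝ) : Prop :=
  ∀ m : (Fin d → ℤ) → ℤ, (∀ a, a ∉ A → m a = 0) → ∑ a ∈ A, m a = 0 → ∑ a ∈ A, m a • a = 0 →
    ∑ a ∈ A, (m a : ℝ) * w a = 0 → m = 0

/-- a real affine dependence gives an integral one with the same support bound -/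
theorem int_dep {U : Finset (Fin d → ℤ)} {μ : (Fin d → ℤ) → ℝ} (h0 : μ ≠ 0)
    (hU : ∀ a, a ∉ U → μ a = 0) (h1 : ∑ a ∈ U, μ a = 0) (h2 : ∑ a ∈ U, μ a • toR a = 0) :
    ∃ m : (Fin d → ℤ) → ℤ, m ≠ 0 ∧ (∀ a, a ∉ U → m a = 0) ∧ ∑ a ∈ U, m a = 0 ∧
      ∑ a ∈ U, m a • a = 0 := by
  classical
  set M : Matrix (Option (Fin d)) U ℚ :=
    Matrix.of fun r a => r.elim 1 fun i => (((a : Fin d → ℤ) i : ℤ) : ℚ) with hM
  by_cases hinj : Function.Injective M.mulVecLin
  · exfalso
    obtain ⟨g, hg⟩ := M.mulVecLin.exists_leftInverse_of_injective (LinearMap.ker_eq_bot.2 hinj)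
    set N := LinearMap.toMatrix' g with hN
    have hNM : N * M = 1 := by
      have h3 : LinearMap.toMatrix' (g ∘ₗ M.mulVecLin) = 1 := by rw [hg, LinearMap.toMatrix'_id]
      rw [LinearMap.toMatrix'_comp] at h3
      have h4 : LinearMap.toMatrix' M.mulVecLin = M := by
        rw [← Matrix.toLin'_apply', LinearMap.toMatrix'_toLin']
      rw [h4] at h3
      exact h3
    have hNMR : N.map (algebraMap ℚ ℝ) * M.map (algebraMap ℚ ℝ) = 1 := by
      rw [← Matrix.map_mul, hNM]
      exact Matrix.map_one _ (map_zero _) (map_one _)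
    have h5 : (M.map (algebraMap ℚ ℝ)).mulVec (fun a : U => μ a) = 0 := by
      funext r
      rw [Matrix.mulVec, dotProduct]
      rcases r with _ | i
      · have : ∑ a : U, μ a = 0 := by rw [Finset.sum_coe_sort U (fun a => μ a)]; exact h1
        simpa [hM] using this
      · have h6 := congrFun h2 i
        rw [Finset.sum_apply] at h6
        have : ∑ a : U, μ a * ((a : Fin d → ℤ) i : ℝ) = 0 := by
          rw [Finset.sum_coe_sort U (fun a => μ a * (a i : ℝ))]
          exact h6
        simp only [hM, Matrix.map_apply, Matrix.of_apply, Option.elim_some, Pi.zero_apply]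
        rw [← this]
        exact Finset.sum_congr rfl fun a _ => by simp [mul_comm]
    have h6 : (fun a : U => μ a) = 0 := by
      have h7 : (N.map (algebraMap ℚ ℝ) * M.map (algebraMap ℚ ℝ)).mulVec (fun a : U => μ a) = 0 := by
        rw [← Matrix.mulVec_mulVec, h5, Matrix.mulVec_zero]
      rwa [hNMR, Matrix.one_mulVec] at h7
    apply h0
    funext a
    by_cases ha : a ∈ U
    · exact congrFun h6 ⟨a, ha⟩
    · exact hU a ha
  · rw [← LinearMap.ker_eq_bot, Submodule.eq_bot_iff] at hinj
    push Not at hinj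
    obtain ⟨v, hv, hv0⟩ := hinj
    obtain ⟨b, hb⟩ := IsLocalization.exist_integer_multiples_of_finite (nonZeroDivisors ℤ) v
    choose n hn using hb
    have hb0 : ((b : ℤ) : ℚ) ≠ 0 := by
      exact_mod_cast nonZeroDivisors.coe_ne_zero b
    have hn' : ∀ a : U, ((n a : ℤ) : ℚ) = (b : ℤ) * v a := by
      intro a
      have := hn a
      simpa using this
    have hsum : ∀ c : U → ℤ, ∑ a : U, (c a : ℚ) * v a = 0 → ∑ a : U, n a * c a = 0 := by
      intro c hc
      have : ((∑ a : U, n a * c a : ℤ) : ℚ) = 0 := by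
        push_cast
        rw [← mul_zero ((b : ℤ) : ℚ), ← hc, Finset.mul_sum]
        exact Finset.sum_congr rfl fun a _ => by rw [hn' a]; ring
      exact_mod_cast this
    have hv1 : ∀ r, ∑ a : U, M r a * v a = 0 := fun r => congrFun (LinearMap.mem_ker.1 hv) r
    set m : (Fin d → ℤ) → ℤ := fun a => if ha : a ∈ U then n ⟨a, ha⟩ else 0 with hm
    have hms : ∀ a : U, m a = n a := fun a => by simp [hm]
    refine ⟨m, ?_, fun a ha => by simp [hm, ha], ?_, ?_⟩
    · intro h
      apply hv0
      funext a
      have h3 := hn' a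
      rw [← hms a, h] at h3
      simp only [Pi.zero_apply, Int.cast_zero] at h3
      rcases mul_eq_zero.1 h3.symm with h4 | h4
      · exact absurd h4 hb0
      · exact h4
    · rw [← Finset.sum_coe_sort U]
      have := hsum (fun _ => 1) (by simpa [hM] using hv1 none)
      rw [← this]
      exact Finset.sum_congr rfl fun a _ => by rw [hms a, mul_one]
    · funext i
      rw [Finset.sum_apply, ← Finset.sum_coe_sort U]
      have := hsum (fun a => (a : Fin d → ℤ) i) (by simpa [hM] using hv1 (some i))
      rw [Pi.zero_apply, ← this]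
      exact Finset.sum_congr rfl fun a _ => by rw [hms a]; rfl

theorem uniq_of_generic {A : Finset (Fin d → ℤ)} {w : (Fin d → ℤ) → ℝ} (hg : Generic A w) :
    Uniq A w := by
  classical
  intro x l m hl hm
  by_contra hne
  -- the midpoint is optimal
  set s : (Fin d → ℤ) → ℝ := fun a => l a + (m a - l a) / 2 with hs
  have hsr : IsRep A x s := by
    refine hl.rep.add ?_ ?_ ?_ ?_
    · intro a ha
      rw [hl.rep.off a ha, hm.rep.off a ha]; ring
    · rw [← Finset.sum_div, Finset.sum_sub_distrib, hl.rep.one, hm.rep.one]; ring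
    · have : ∀ a ∈ A, ((m a - l a) / 2) • toR a =
          (1 / 2 : ℝ) • (m a • toR a - l a • toR a) := by
        intro a _
        rw [← sub_smul, ← mul_smul]
        congr 1; ring
      rw [Finset.sum_congr rfl this, ← Finset.smul_sum, Finset.sum_sub_distrib, hm.rep.eq,
        hl.rep.eq, sub_self, smul_zero]
    · intro a
      have h1 := hl.rep.nonneg a
      have h2 := hm.rep.nonneg a
      linarith
  have hso : IsOpt A w x s := by
    refine ⟨hsr, fun m' hm' => ?_⟩
    have h1 := hl.le m' hm'
    have h2 := hm.le m' hm'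
    have h3 : cost A w s = (cost A w l + cost A w m) / 2 := by
      unfold cost
      rw [← Finset.sum_add_distrib, Finset.sum_div]
      exact Finset.sum_congr rfl fun a _ => by simp only [hs]; ring
    rw [h3]; linarith
  have hs0 : ∀ a, s a = 0 → l a = 0 ∧ m a = 0 := by
    intro a ha
    have h1 := hl.rep.nonneg a
    have h2 := hm.rep.nonneg a
    have h3 : l a + (m a - l a) / 2 = 0 := ha
    constructor <;> linarith
  set U := A.filter fun a => s a ≠ 0 with hU
  have hUs : ∀ a, a ∉ U → s a = 0 := by
    intro a ha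
    by_contra h
    refine ha (Finset.mem_filter.2 ⟨?_, h⟩)
    by_contra h'
    exact h (hsr.off a h')
  have hUA : U ⊆ A := Finset.filter_subset _ _
  have hlU : IsRep U x l := hl.rep.shrink hUA fun a ha => (hs0 a (hUs a ha)).1
  have hmU : IsRep U x m := hm.rep.shrink hUA fun a ha => (hs0 a (hUs a ha)).2
  obtain ⟨n, hn0, hnU, hn1, hn2⟩ := int_dep (U := U) (μ := fun a => m a - l a)
    (by
      intro h
      apply hne
      funext a
      have := congrFun h a
      simp only [Pi.zero_apply] at this
      linarith)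
    (fun a ha => by
      rw [(hs0 a (hUs a ha)).1, (hs0 a (hUs a ha)).2, sub_zero])
    (by rw [Finset.sum_sub_distrib, hlU.one, hmU.one, sub_self])
    (by simp only [sub_smul]; rw [Finset.sum_sub_distrib, hlU.eq, hmU.eq, sub_self])
  have hnA : ∀ a, a ∉ A → n a = 0 := fun a ha => hnU a fun h => ha (hUA h)
  have e1 : ∑ a ∈ A, n a = 0 := by
    rw [← hn1]; exact (Finset.sum_subset hUA fun a _ ha => hnU a ha).symm
  have e2 : ∑ a ∈ A, n a • a = 0 := by
    rw [← hn2]; exact (Finset.sum_subset hUA fun a _ ha => by rw [hnU a ha, zero_smul]).symm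
  have e3 := (hso.dep (m := fun a => (n a : ℝ))
    (fun a ha => by
      have : n a = 0 := hnU a fun h => (Finset.mem_filter.1 h).2 ha
      rw [this]; simp)
    (by exact_mod_cast e1)
    (by
      funext i
      have h3 := congrFun e2 i
      rw [Finset.sum_apply] at h3 ⊢
      have h4 : ((∑ a ∈ A, n a * a i : ℤ) : ℝ) = 0 := by
        have : ∑ a ∈ A, n a * a i = 0 := h3
        rw [this]; simp
      push_cast at h4
      exact h4)).1
  exact hn0 (hg n hnA e1 e2 e3)

end Pool.MP_554263_co.H47
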