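import Pool.Agent.W_554263_h47.C

/-!
Weights `N a + t q a + t ^ e a` for small transcendental `t`, and cells that persist.
-/

set_option autoImplicit false

namespace Pool.MP_554263_co.H47

open Polynomial Filter

variable {d : ℕ}

/-- the weights -/
def wt (N q : (Fin d → ℤ) → ℤ) (e : (Fin d → ℤ) → ℕ) (t : ℝ) (a : Fin d → ℤ) : ℝ :=
  (N a : ℝ) + t * (q a : ℝ) + t ^ e a

theorem generic_wt {A : Finset (Fin d → ℤ)} {N q : (Fin d → ℤ) → ℤ} {e : (Fin d → ℤ) → ℕ} {t : ℝ}
    (ht : Transcendental ℤ t) (he : ∀ a ∈ A, 2 ≤ e a) (hinj : Set.InjOn e (A : Set (Fin d → ℤ))) :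
    Generic A (wt N q e t) := by
  classical
  intro m hm0 _ _ hm
  set P : ℤ[X] := ∑ a ∈ A, C (m a) * (C (N a) + C (q a) * X + X ^ e a) with hP
  have hP0 : P = 0 := by
    apply (transcendental_iff.1 ht)
    rw [hP, map_sum, ← hm]
    refine Finset.sum_congr rfl fun a _ => ?_
    simp only [map_mul, map_add, map_pow, aeval_X, aeval_C, wt]
    simp only [algebraMap_int_eq, eq_intCast]
    ring
  funext b
  by_cases hb : b ∈ A
  · have h1 : P.coeff (e b) = m b := by
      rw [hP, finsetSum_coeff, Finset.sum_eq_single b]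
      · have h2 := he b hb
        simp only [coeff_C_mul, coeff_add, coeff_X_pow]
        rw [coeff_C, coeff_X, if_neg (by omega), if_neg (by omega)]
        simp
      · intro a ha hab
        have h2 := he b hb
        have h3 : e b ≠ e a := fun h => hab (hinj ha hb h.symm)
        simp only [coeff_C_mul, coeff_add, coeff_X_pow]
        rw [coeff_C, coeff_X, if_neg (by omega), if_neg (by omega), if_neg h3]
        simp
      · intro h; exact absurd hb h
    rw [← h1, hP0]
    simp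
  · simpa using hm0 b hb

theorem exists_transcendental {P : ℝ → Prop} (h : ∀ᶠ t in nhdsWithin (0 : ℝ) (Set.Ioi 0), P t) :
    ∃ t, 0 < t ∧ Transcendental ℤ t ∧ P t := by
  rw [eventually_nhdsWithin_iff, Metric.eventually_nhds_iff] at h
  obtain ⟨ε, hε, h⟩ := h
  obtain ⟨t, ht1, ht2⟩ := dense_liouville.exists_mem_open (isOpen_Ioo (a := (0 : ℝ)) (b := ε))
    ⟨ε / 2, by constructor <;> linarith⟩
  refine ⟨t, ht2.1, ht1.transcendental, h ?_ ht2.1⟩
  rw [Real.dist_eq, sub_zero, abs_of_pos ht2.1]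
  exact ht2.2

/-- `V` is a cell for the points of `A'` -/
def Cell (A' : Finset (Fin d → ℤ)) (w : (Fin d → ℤ) → ℝ) (V : Finset (Fin d → ℤ)) : Prop :=
  ∃ (L : (Fin d → ℝ) →ₗ[ℝ] ℝ) (c : ℝ), (∀ v ∈ V, w v = L (toR v) + c) ∧
    ∀ a ∈ A', a ∉ V → L (toR a) + c < w a

/-- coordinate functionals of the points of `V` -/
def Interp (V : Finset (Fin d → ℤ)) : Prop :=
  ∀ v ∈ V, ∃ (L : (Fin d → ℝ) →ₗ[ℝ] ℝ) (c : ℝ), L (toR v) + c = 1 ∧
    ∀ v' ∈ V, v' ≠ v → L (toR v') + c = 0

theorem Cell.support {A A' V : Finset (Fin d → ℤ)} {w : (Fin d → ℤ) → ℝ} (hV : V ⊆ A)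
    (hc : Cell A' w V) {x : Fin d → ℝ} (hx : x ∈ hull V) {m : (Fin d → ℤ) → ℝ}
    (hm : IsOpt A w x m) (hs : ∀ a, m a ≠ 0 → a ∈ A') : ∀ a, m a ≠ 0 → a ∈ V := by
  classical
  obtain ⟨L, c, h1, h2⟩ := hc
  obtain ⟨l, hl⟩ := mem_hull_iff.1 hx
  have hlA := hl.mono hV
  have key : ∀ n : (Fin d → ℤ) → ℝ, IsRep A x n → ∑ a ∈ A, n a * (L (toR a) + c) = L x + c := by
    intro n hn
    simp only [mul_add]
    rw [Finset.sum_add_distrib, ← Finset.sum_mul, hn.one, one_mul, ← hn.eq, map_sum]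
    congr 1
    exact Finset.sum_congr rfl fun a _ => by rw [map_smul, smul_eq_mul]
  have hcl : cost A w l = L x + c := by
    rw [← key l hlA]
    unfold cost
    refine Finset.sum_congr rfl fun a _ => ?_
    by_cases ha : a ∈ V
    · rw [h1 a ha]
    · rw [hl.off a ha, zero_mul, zero_mul]
  have hle := hm.le l hlA
  rw [hcl, ← key m hm.rep] at hle
  intro a ha
  by_contra haV
  have haA : a ∈ A := by
    by_contra h
    exact ha (hm.rep.off a h)
  have hlt : ∑ a ∈ A, m a * (L (toR a) + c) < cost A w m := by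
    unfold cost
    apply Finset.sum_lt_sum
    · intro b _
      by_cases hb : m b = 0
      · rw [hb, zero_mul, zero_mul]
      · refine mul_le_mul_of_nonneg_left ?_ (hm.rep.nonneg b)
        by_cases hbV : b ∈ V
        · exact (h1 b hbV).ge
        · exact (h2 b (hs b hb) hbV).le
    · exact ⟨a, haA, mul_lt_mul_of_pos_left (h2 a (hs a ha) haV)
        (lt_of_le_of_ne (hm.rep.nonneg a) (Ne.symm ha))⟩
  linarith

/-- cells persist: `V` has constant `N`, affine `q`, and the other points of `A'` have larger `N`, or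
the same `N` and larger `q` -/
theorem cell_persist {A' V : Finset (Fin d → ℤ)} {N q : (Fin d → ℤ) → ℤ} {e : (Fin d → ℤ) → ℕ}
    (heV : ∀ v ∈ V, 2 ≤ e v) (heA : ∀ a ∈ A', 2 ≤ e a) (hI : Interp V) {n0 : ℤ}
    (hN : ∀ v ∈ V, N v = n0)
    {Lq : (Fin d → ℝ) →ₗ[ℝ] ℝ} {cq : ℝ} (hq : ∀ v ∈ V, (q v : ℝ) = Lq (toR v) + cq)
    (h : ∀ a ∈ A', a ∉ V → n0 < N a ∨ (N a = n0 ∧ Lq (toR a) + cq < q a)) :
    ∀ᶠ t in nhdsWithin (0 : ℝ) (Set.Ioi 0), Cell A' (wt N q e t) V := by
  classical
  choose! Lv cv hLv1 hLv2 using hI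
  -- the certificate
  have hpos : ∀ᶠ t in nhdsWithin (0 : ℝ) (Set.Ioi 0), ∀ a ∈ A', a ∉ V →
      0 < ((N a : ℝ) - n0) + t * ((q a : ℝ) - (Lq (toR a) + cq)) + t ^ e a -
        ∑ v ∈ V, t ^ e v * (Lv v (toR a) + cv v) := by
    rw [eventually_all_finset]
    intro a ha
    by_cases haV : a ∈ V
    · exact Eventually.of_forall fun t h' => absurd haV h'
    rcases h a ha haV with h1 | ⟨h1, h2⟩
    · have hc : Continuous fun t : ℝ => ((N a : ℝ) - n0) + t * ((q a : ℝ) - (Lq (toR a) + cq)) +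
          t ^ e a - ∑ v ∈ V, t ^ e v * (Lv v (toR a) + cv v) := by fun_prop
      have h0 : (0 : ℝ) < ((N a : ℝ) - n0) + 0 * ((q a : ℝ) - (Lq (toR a) + cq)) +
          0 ^ e a - ∑ v ∈ V, 0 ^ e v * (Lv v (toR a) + cv v) := by
        have e1 : (0 : ℝ) ^ e a = 0 := zero_pow (by have := heA a ha; omega)
        have e2 : ∑ v ∈ V, (0 : ℝ) ^ e v * (Lv v (toR a) + cv v) = 0 :=
          Finset.sum_eq_zero fun v hv => by
            rw [zero_pow (by have := heV v hv; omega), zero_mul]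
        rw [e1, e2]
        have : (n0 : ℝ) < N a := by exact_mod_cast h1
        linarith
      exact ((hc.tendsto 0).eventually (lt_mem_nhds h0)).filter_mono nhdsWithin_le_nhds |>.mono
        fun t ht _ => ht
    · have hc : Continuous fun t : ℝ => ((q a : ℝ) - (Lq (toR a) + cq)) +
          t ^ (e a - 1) - ∑ v ∈ V, t ^ (e v - 1) * (Lv v (toR a) + cv v) := by fun_prop
      have h0 : (0 : ℝ) < ((q a : ℝ) - (Lq (toR a) + cq)) +
          0 ^ (e a - 1) - ∑ v ∈ V, 0 ^ (e v - 1) * (Lv v (toR a) + cv v) := by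
        have e1 : (0 : ℝ) ^ (e a - 1) = 0 := zero_pow (by have := heA a ha; omega)
        have e2 : ∑ v ∈ V, (0 : ℝ) ^ (e v - 1) * (Lv v (toR a) + cv v) = 0 :=
          Finset.sum_eq_zero fun v hv => by
            rw [zero_pow (by have := heV v hv; omega), zero_mul]
        rw [e1, e2]
        linarith
      have h3 := ((hc.tendsto 0).eventually (lt_mem_nhds h0)).filter_mono
        (nhdsWithin_le_nhds (s := Set.Ioi (0 : ℝ)))
      filter_upwards [h3, self_mem_nhdsWithin] with t ht ht0 _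
      have ht0' : 0 < t := ht0
      have e1 : t ^ e a = t * t ^ (e a - 1) := by
        rw [← pow_succ']; congr 1; have := heA a ha; omega
      have e2 : ∑ v ∈ V, t ^ e v * (Lv v (toR a) + cv v) =
          t * ∑ v ∈ V, t ^ (e v - 1) * (Lv v (toR a) + cv v) := by
        rw [Finset.mul_sum]
        refine Finset.sum_congr rfl fun v hv => ?_
        rw [← mul_assoc, ← pow_succ']; congr 2; have := heV v hv; omega
      rw [e1, e2, h1]
      have := mul_pos ht0' ht
      nlinarith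
  filter_upwards [hpos] with t ht
  refine ⟨t • Lq + ∑ v ∈ V, t ^ e v • Lv v, n0 + t * cq + ∑ v ∈ V, t ^ e v * cv v, ?_, ?_⟩
  · intro v hv
    have e1 : ∑ u ∈ V, t ^ e u * (Lv u (toR v) + cv u) = t ^ e v := by
      rw [Finset.sum_eq_single v]
      · rw [hLv1 v hv, mul_one]
      · intro u hu huv
        rw [hLv2 u hu v hv huv.symm, mul_zero]
      · intro h'; exact absurd hv h'
    simp only [mul_add] at e1
    rw [Finset.sum_add_distrib] at e1
    simp only [wt, LinearMap.add_apply, LinearMap.smul_apply, LinearMap.sum_apply, smul_eq_mul]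
    rw [hN v hv, hq v hv, ← e1]
    ring
  · intro a ha haV
    have h1 := ht a ha haV
    simp only [mul_add] at h1
    rw [Finset.sum_add_distrib] at h1
    simp only [wt, LinearMap.add_apply, LinearMap.smul_apply, LinearMap.sum_apply, smul_eq_mul]
    linarith

end Pool.MP_554263_co.H47
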