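import Pool.Agent.W_554263_h47.D

/-!
Frames (coordinates on a face) and alcoves.
-/

set_option autoImplicit false

namespace Pool.MP_554263_co.H47

variable {d : ℕ}

theorem toR_add (a b : Fin d → ℤ) : toR (a + b) = toR a + toR b := by
  funext i; simp [toR]

theorem toR_zsmul (n : ℤ) (a : Fin d → ℤ) : toR (n • a) = (n : ℝ) • toR a := by
  funext i; simp [toR]

theorem toR_zero : toR (0 : Fin d → ℤ) = 0 := by
  funext i; simp [toR]

theorem toR_sum {ι : Type*} (s : Finset ι) (f : ι → Fin d → ℤ) :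
    toR (∑ i ∈ s, f i) = ∑ i ∈ s, toR (f i) := by
  classical
  induction s using Finset.induction_on with
  | empty => simp [toR_zero]
  | insert a s ha ih => rw [Finset.sum_insert ha, Finset.sum_insert ha, toR_add, ih]

/-- coordinates on a face -/
structure Frame (d : ℕ) where
  k : ℕ
  o : Fin d → ℤ
  b : Fin k → Fin d → ℤ
  ψ : Fin k → (Fin d → ℝ) →ₗ[ℝ] ℝ
  dual : ∀ i j, ψ i (toR (b j)) = if i = j then 1 else 0

namespace Frame

variable (f : Frame d)

/-- the lattice point with coordinates `n` -/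
def pt (n : Fin f.k → ℤ) : Fin d → ℤ := f.o + ∑ i, n i • f.b i

/-- the coordinates -/
def co (y : Fin d → ℝ) (i : Fin f.k) : ℝ := f.ψ i (y - toR f.o)

theorem toR_pt (n : Fin f.k → ℤ) : toR (f.pt n) = toR f.o + ∑ i, (n i : ℝ) • toR (f.b i) := by
  unfold pt
  rw [toR_add, toR_sum]
  congr 1
  exact Finset.sum_congr rfl fun i _ => toR_zsmul _ _

theorem co_add (ξ : Fin f.k → ℝ) (i : Fin f.k) :
    f.co (toR f.o + ∑ j, ξ j • toR (f.b j)) i = ξ i := by
  unfold co
  rw [add_sub_cancel_left, map_sum, Finset.sum_eq_single i]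
  · rw [map_smul, f.dual, if_pos rfl, smul_eq_mul, mul_one]
  · intro j _ hj
    rw [map_smul, f.dual, if_neg (Ne.symm hj), smul_zero]
  · intro h; exact absurd (Finset.mem_univ i) h

theorem co_pt (n : Fin f.k → ℤ) (i : Fin f.k) : f.co (toR (f.pt n)) i = n i := by
  rw [toR_pt, co_add]

theorem pt_injective : Function.Injective f.pt := by
  intro n m h
  funext i
  have := f.co_pt n i
  rw [h, f.co_pt] at this
  exact_mod_cast this.symm

end Frame

/-- the quadratic weight -/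
def Qf {k : ℕ} (n : Fin k → ℤ) : ℤ := 2 * ∑ i, n i ^ 2 + ∑ i, ∑ j, (n i - n j) ^ 2

/-- the quadratic weight of a lattice point -/
noncomputable def Frame.q (f : Frame d) (a : Fin d → ℤ) : ℤ := Qf fun i => ⌊f.co (toR a) i⌋

theorem Frame.q_pt (f : Frame d) (n : Fin f.k → ℤ) : f.q (f.pt n) = Qf n := by
  unfold Frame.q
  congr 1
  funext i
  rw [f.co_pt, Int.floor_intCast]

/-- affine functions -/
def Aff (g : (Fin d → ℝ) → ℝ) : Prop :=
  ∃ (L : (Fin d → ℝ) →ₗ[ℝ] ℝ) (c : ℝ), ∀ y, g y = L y + c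

theorem Aff.const (c : ℝ) : Aff (d := d) fun _ => c := ⟨0, c, fun y => by simp⟩

theorem Aff.add {g h : (Fin d → ℝ) → ℝ} (hg : Aff g) (hh : Aff h) : Aff fun y => g y + h y := by
  obtain ⟨L, c, h1⟩ := hg
  obtain ⟨M, e, h2⟩ := hh
  exact ⟨L + M, c + e, fun y => by simp only [h1, h2, LinearMap.add_apply]; ring⟩

theorem Aff.mul {g : (Fin d → ℝ) → ℝ} (r : ℝ) (hg : Aff g) : Aff fun y => r * g y := by
  obtain ⟨L, c, h1⟩ := hg
  exact ⟨r • L, r * c, fun y => by simp only [h1, LinearMap.smul_apply, smul_eq_mul]; ring⟩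

theorem Aff.sub {g h : (Fin d → ℝ) → ℝ} (hg : Aff g) (hh : Aff h) : Aff fun y => g y - h y := by
  obtain ⟨L, c, h1⟩ := hg
  obtain ⟨M, e, h2⟩ := hh
  exact ⟨L - M, c - e, fun y => by simp only [h1, h2, LinearMap.sub_apply]; ring⟩

theorem Aff.sum {ι : Type*} (s : Finset ι) {g : ι → (Fin d → ℝ) → ℝ} (h : ∀ i, Aff (g i)) :
    Aff fun y => ∑ i ∈ s, g i y := by
  classical
  induction s using Finset.induction_on with
  | empty => simpa using Aff.const 0
  | insert a s ha ih =>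
    simp only [Finset.sum_insert ha]
    exact (h a).add ih

theorem Frame.aff_co (f : Frame d) (i : Fin f.k) : Aff fun y => f.co y i :=
  ⟨f.ψ i, -f.ψ i (toR f.o), fun y => by simp only [Frame.co, map_sub]; ring⟩

section alcove

variable (f : Frame d) (z : Fin f.k → ℤ) (ρ : Equiv.Perm (Fin f.k))

/-- the `j`-th vertex of an alcove -/
def av (j : ℕ) : Fin d → ℤ := f.pt fun i => z i + if (ρ i : ℕ) < j then 1 else 0

/-- the vertices of an alcove -/
noncomputable def alc : Finset (Fin d → ℤ) := by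
  classical
  exact (Finset.range (f.k + 1)).image (av f z ρ)

theorem mem_alc {v : Fin d → ℤ} : v ∈ alc f z ρ ↔ ∃ j, j ≤ f.k ∧ av f z ρ j = v := by
  classical
  unfold alc
  rw [Finset.mem_image]
  simp only [Finset.mem_range, Nat.lt_succ_iff]

theorem alc_card : (alc f z ρ).card ≤ f.k + 1 := by
  classical
  unfold alc
  exact Finset.card_image_le.trans (by rw [Finset.card_range])

/-- signs of an alcove -/
def sg (i j : Fin f.k) : ℤ := if ρ i < ρ j then 1 else if ρ j < ρ i then -1 else 0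

/-- the slack -/
def slack (m : Fin f.k → ℤ) : ℤ :=
  2 * ∑ i, (m i ^ 2 - m i) + ∑ i, ∑ j, ((m i - m j) ^ 2 - sg f ρ i j * (m i - m j))

theorem Qf_eq (m : Fin f.k → ℤ) : Qf (fun i => z i + m i) = Qf z + ∑ i, (4 * z i + 2) * m i +
    ∑ i, ∑ j, (2 * (z i - z j) + sg f ρ i j) * (m i - m j) + slack f ρ m := by
  unfold Qf slack
  have e1 : ∑ i, (z i + m i) ^ 2 = ∑ i, z i ^ 2 + 2 * ∑ i, z i * m i + ∑ i, m i ^ 2 := by
    rw [Finset.mul_sum, ← Finset.sum_add_distrib, ← Finset.sum_add_distrib]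
    exact Finset.sum_congr rfl fun i _ => by ring
  have e2 : ∑ i, (4 * z i + 2) * m i = 4 * ∑ i, z i * m i + 2 * ∑ i, m i := by
    rw [Finset.mul_sum, Finset.mul_sum, ← Finset.sum_add_distrib]
    exact Finset.sum_congr rfl fun i _ => by ring
  have e3 : ∑ i, (m i ^ 2 - m i) = ∑ i, m i ^ 2 - ∑ i, m i := Finset.sum_sub_distrib _ _
  have e4 : ∑ i, ∑ j, ((z i + m i) - (z j + m j)) ^ 2 = ∑ i, ∑ j, (z i - z j) ^ 2 +
      ∑ i, ∑ j, (2 * (z i - z j) + sg f ρ i j) * (m i - m j) +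
      ∑ i, ∑ j, ((m i - m j) ^ 2 - sg f ρ i j * (m i - m j)) := by
    rw [← Finset.sum_add_distrib, ← Finset.sum_add_distrib]
    refine Finset.sum_congr rfl fun i _ => ?_
    rw [← Finset.sum_add_distrib, ← Finset.sum_add_distrib]
    exact Finset.sum_congr rfl fun j _ => by ring
  rw [e1, e2, e3, e4]
  ring

theorem sq_sub_nonneg (x : ℤ) : 0 ≤ x ^ 2 - x := by
  rcases le_or_gt x 0 with h | h
  · nlinarith [sq_nonneg x]
  · nlinarith

theorem slack_term_nonneg (m : Fin f.k → ℤ) (i j : Fin f.k) :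
    0 ≤ (m i - m j) ^ 2 - sg f ρ i j * (m i - m j) := by
  unfold sg
  split_ifs
  · have := sq_sub_nonneg (m i - m j); linarith
  · have := sq_sub_nonneg (m j - m i); nlinarith
  · nlinarith [sq_nonneg (m i - m j)]

theorem slack_nonneg (m : Fin f.k → ℤ) : 0 ≤ slack f ρ m := by
  unfold slack
  have h1 : 0 ≤ ∑ i, (m i ^ 2 - m i) := Finset.sum_nonneg fun i _ => sq_sub_nonneg _
  have h2 : 0 ≤ ∑ i, ∑ j, ((m i - m j) ^ 2 - sg f ρ i j * (m i - m j)) :=
    Finset.sum_nonneg fun i _ => Finset.sum_nonneg fun j _ => slack_term_nonneg f ρ m i j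
  linarith

theorem slack_vertex (j : ℕ) : slack f ρ (fun i => if (ρ i : ℕ) < j then 1 else 0) = 0 := by
  unfold slack
  have h1 : ∑ i : Fin f.k, ((if (ρ i : ℕ) < j then (1 : ℤ) else 0) ^ 2 -
      (if (ρ i : ℕ) < j then (1 : ℤ) else 0)) = 0 :=
    Finset.sum_eq_zero fun i _ => by split_ifs <;> norm_num
  have h2 : ∑ i : Fin f.k, ∑ l : Fin f.k, (((if (ρ i : ℕ) < j then (1 : ℤ) else 0) -
      (if (ρ l : ℕ) < j then (1 : ℤ) else 0)) ^ 2 - sg f ρ i l *
      ((if (ρ i : ℕ) < j then (1 : ℤ) else 0) - (if (ρ l : ℕ) < j then (1 : ℤ) else 0))) = 0 := by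
    refine Finset.sum_eq_zero fun i _ => Finset.sum_eq_zero fun l _ => ?_
    unfold sg
    by_cases h3 : (ρ i : ℕ) < j <;> by_cases h4 : (ρ l : ℕ) < j
    · simp [h3, h4]
    · have h5 : ρ i < ρ l := by rw [Fin.lt_def]; omega
      simp [h3, h4, h5]
    · have h5 : ρ l < ρ i := by rw [Fin.lt_def]; omega
      have h6 : ¬ ρ i < ρ l := by rw [Fin.lt_def] at h5 ⊢; omega
      simp [h3, h4, h5, h6]
    · simp [h3, h4]
  rw [h1, h2]; norm_num

theorem vertex_of_slack {m : Fin f.k → ℤ} (h : slack f ρ m ≤ 0) :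
    ∃ j, j ≤ f.k ∧ m = fun i => if (ρ i : ℕ) < j then 1 else 0 := by
  have h0 : slack f ρ m = 0 := le_antisymm h (slack_nonneg f ρ m)
  unfold slack at h0
  have h1 : 0 ≤ ∑ i, (m i ^ 2 - m i) := Finset.sum_nonneg fun i _ => sq_sub_nonneg _
  have h2 : 0 ≤ ∑ i, ∑ j, ((m i - m j) ^ 2 - sg f ρ i j * (m i - m j)) :=
    Finset.sum_nonneg fun i _ => Finset.sum_nonneg fun j _ => slack_term_nonneg f ρ m i j
  have h3 : ∑ i, (m i ^ 2 - m i) = 0 := by linarith
  have h4 : ∑ i, ∑ j, ((m i - m j) ^ 2 - sg f ρ i j * (m i - m j)) = 0 := by linarith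
  rw [Finset.sum_eq_zero_iff_of_nonneg fun i _ => sq_sub_nonneg _] at h3
  rw [Finset.sum_eq_zero_iff_of_nonneg
    fun i _ => Finset.sum_nonneg fun j _ => slack_term_nonneg f ρ m i j] at h4
  have h5 : ∀ i, m i = 0 ∨ m i = 1 := by
    intro i
    have := h3 i (Finset.mem_univ i)
    have h6 : m i * (m i - 1) = 0 := by nlinarith
    rcases mul_eq_zero.1 h6 with h7 | h7
    · exact Or.inl h7
    · right; omega
  have h6 : ∀ i j, ρ i < ρ j → m j ≤ m i := by
    intro i j hij
    have h7 := h4 i (Finset.mem_univ i)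
    rw [Finset.sum_eq_zero_iff_of_nonneg fun j _ => slack_term_nonneg f ρ m i j] at h7
    have h8 := h7 j (Finset.mem_univ j)
    unfold sg at h8
    rw [if_pos hij] at h8
    by_contra h9
    push Not at h9
    nlinarith
  classical
  refine ⟨Finset.univ.sup fun i => if m i = 1 then (ρ i : ℕ) + 1 else 0, ?_, ?_⟩
  · refine Finset.sup_le fun i _ => ?_
    split_ifs
    · exact (ρ i).2
    · exact Nat.zero_le _
  · funext i
    rcases h5 i with h7 | h7
    · rw [h7, if_neg]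
      intro h8
      rw [Finset.lt_sup_iff] at h8
      obtain ⟨l, _, h9⟩ := h8
      split_ifs at h9 with h10
      · rcases lt_or_eq_of_le (Nat.lt_succ_iff.1 h9) with h11 | h11
        · have := h6 i l (by rw [Fin.lt_def]; exact h11)
          omega
        · have : i = l := ρ.injective (Fin.ext h11)
          rw [this] at h7
          omega
      · exact absurd h9 (Nat.not_lt_zero _)
    · rw [h7, if_pos]
      have h8 : (if m i = 1 then (ρ i : ℕ) + 1 else 0) ≤
          Finset.univ.sup fun i => if m i = 1 then (ρ i : ℕ) + 1 else 0 :=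
        Finset.le_sup (f := fun i => if m i = 1 then (ρ i : ℕ) + 1 else 0) (Finset.mem_univ i)
      rw [if_pos h7] at h8
      exact h8

/-- the certificate of an alcove -/
theorem alc_cert : ∃ (L : (Fin d → ℝ) →ₗ[ℝ] ℝ) (c : ℝ),
    (∀ v ∈ alc f z ρ, (f.q v : ℝ) = L (toR v) + c) ∧
    ∀ n, f.pt n ∉ alc f z ρ → L (toR (f.pt n)) + c < f.q (f.pt n) := by
  have hA : Aff fun y => (Qf z : ℝ) + ∑ i, (4 * (z i : ℝ) + 2) * (f.co y i - z i) +
      ∑ i, ∑ j, (2 * ((z i : ℝ) - z j) + sg f ρ i j) * ((f.co y i - z i) - (f.co y j - z j)) := by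
    refine ((Aff.const _).add (Aff.sum _ fun i => ?_)).add
      (Aff.sum _ fun i => Aff.sum _ fun j => ?_)
    · exact ((f.aff_co i).sub (Aff.const _)).mul _
    · exact (((f.aff_co i).sub (Aff.const _)).sub ((f.aff_co j).sub (Aff.const _))).mul _
  obtain ⟨L, c, h⟩ := hA
  have key : ∀ n : Fin f.k → ℤ, (f.q (f.pt n) : ℝ) =
      L (toR (f.pt n)) + c + (slack f ρ fun i => n i - z i : ℤ) := by
    intro n
    rw [← h, f.q_pt]
    have h1 := Qf_eq f z ρ fun i => n i - z i
    have h2 : (fun i => z i + (n i - z i)) = n := by funext i; ring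
    rw [h2] at h1
    rw [h1]
    push_cast
    simp only [f.co_pt]
  refine ⟨L, c, ?_, ?_⟩
  · intro v hv
    obtain ⟨j, hj, rfl⟩ := (mem_alc f z ρ).1 hv
    unfold av
    rw [key]
    have : (fun i => z i + (if (ρ i : ℕ) < j then (1 : ℤ) else 0) - z i) =
        fun i => if (ρ i : ℕ) < j then 1 else 0 := by funext i; ring
    rw [this, slack_vertex]
    simp
  · intro n hn
    rw [key]
    have : 0 < slack f ρ fun i => n i - z i := by
      by_contra hc
      obtain ⟨j, hj, hm⟩ := vertex_of_slack f ρ (not_lt.1 hc)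
      apply hn
      refine (mem_alc f z ρ).2 ⟨j, hj, ?_⟩
      unfold av
      congr 1
      funext i
      have : n i - z i = if (ρ i : ℕ) < j then 1 else 0 := congrFun hm i
      rw [← this]; ring
    have h2 : (0 : ℝ) < ((slack f ρ fun i => n i - z i : ℤ) : ℝ) := by exact_mod_cast this
    linarith

end alcove

end Pool.MP_554263_co.H47
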