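import Pool.Agent.W_554263_h47.F

/-!
Alcoves: coordinate functionals, membership in the convex hull, unimodularity.
-/

set_option autoImplicit false

namespace Pool.MP_554263_co.H47

variable {d : ℕ}

/-- `U` is a unimodular simplex of the lattice `Λ`: the differences to one of its vertices are a basis
of `Λ` -/
def IsUnimodular (Λ : Submodule ℤ (Fin d → ℤ)) (U : Finset (Fin d → ℤ)) : Prop :=
  ∃ (k : ℕ) (u : Fin d → ℤ) (c : Fin k → Fin d → ℤ), LinearIndependent ℤ c ∧
    Submodule.span ℤ (Set.range c) = Λ ∧ (U : Set (Fin d → ℤ)) = insert u (Set.range fun i => u + c i)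

section alcove

variable (f : Frame d) (z : Fin f.k → ℤ) (ρ : Equiv.Perm (Fin f.k))

/-- the functions `M` of an alcove: `1`, the coordinates in the order of `ρ`, `0` -/
noncomputable def Mf (y : Fin d → ℝ) : ℕ → ℝ
  | 0 => 1
  | i + 1 => if h : i < f.k then f.co y (ρ.symm ⟨i, h⟩) - z (ρ.symm ⟨i, h⟩) else 0

theorem aff_Mf (i : ℕ) : Aff fun y => Mf f z ρ y i := by
  cases i with
  | zero => exact Aff.const 1
  | succ i =>
    by_cases h : i < f.k
    · simp only [Mf, dif_pos h]
      exact (f.aff_co _).sub (Aff.const _)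
    · simp only [Mf, dif_neg h]
      exact Aff.const 0

theorem Mf_av {j : ℕ} (hj : j ≤ f.k) (i : ℕ) :
    Mf f z ρ (toR (av f z ρ j)) i = if i ≤ j then 1 else 0 := by
  cases i with
  | zero => simp [Mf]
  | succ i =>
    by_cases h : i < f.k
    · simp only [Mf, dif_pos h]
      unfold av
      rw [f.co_pt]
      push_cast
      rw [Equiv.apply_symm_apply]
      by_cases h2 : i < j
      · rw [if_pos h2, if_pos (by omega)]; ring
      · rw [if_neg h2, if_neg (by omega)]; ring
    · simp only [Mf, dif_neg h]
      rw [if_neg (by omega)]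

theorem interp_alc : Interp (alc f z ρ) := by
  intro v hv
  obtain ⟨j, hj, rfl⟩ := (mem_alc f z ρ).1 hv
  obtain ⟨L, c, h⟩ := (aff_Mf f z ρ j).sub (aff_Mf f z ρ (j + 1))
  refine ⟨L, c, ?_, ?_⟩
  · rw [← h]
    simp only [Mf_av f z ρ hj]
    rw [if_pos le_rfl, if_neg (by omega)]; ring
  · intro v' hv' hne
    obtain ⟨j', hj', rfl⟩ := (mem_alc f z ρ).1 hv'
    rw [← h]
    simp only [Mf_av f z ρ hj']
    have hjj : j ≠ j' := fun h' => hne (by rw [h'])
    by_cases h1 : j ≤ j'
    · rw [if_pos h1, if_pos (by omega)]; ring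
    · rw [if_neg h1, if_neg (by omega)]; ring

theorem sum_telescope (F : ℕ → ℝ) (r K : ℕ) :
    ∑ j ∈ Finset.range K, (F j - F (j + 1)) * (if r < j then 1 else 0) =
      if r + 1 ≤ K then F (r + 1) - F K else 0 := by
  induction K with
  | zero => simp
  | succ K ih =>
    rw [Finset.sum_range_succ, ih]
    by_cases h1 : r < K
    · rw [if_pos (by omega), if_pos h1, if_pos (by omega)]; ring
    · by_cases h2 : r = K
      · subst h2
        rw [if_neg (by omega), if_neg (by omega), if_pos (by omega)]; ring
      · rw [if_neg (by omega), if_neg (by omega), if_neg (by omega)]; ring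

/-- every point of the affine hull of the frame lies in an alcove near it -/
theorem exists_alc (x : Fin d → ℝ) (hx : x = toR f.o + ∑ i, f.co x i • toR (f.b i)) :
    ∃ (z : Fin f.k → ℤ) (ρ : Equiv.Perm (Fin f.k)), x ∈ hull (alc f z ρ) ∧
      ∀ v ∈ alc f z ρ, ∃ n, v = f.pt n ∧ ∀ i, |(n i : ℝ) - f.co x i| ≤ 1 := by
  classical
  set ξ : Fin f.k → ℝ := f.co x with hξ
  set σ : Equiv.Perm (Fin f.k) := Tuple.sort fun i => -Int.fract (ξ i) with hσ
  have hmono : Monotone ((fun i => -Int.fract (ξ i)) ∘ σ) := Tuple.monotone_sort _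
  set z : Fin f.k → ℤ := fun i => ⌊ξ i⌋ with hz
  refine ⟨z, σ.symm, ?_, ?_⟩
  · set F : ℕ → ℝ := fun i => Mf f z σ.symm x i with hF
    have hF0 : F 0 = 1 := rfl
    have hFs : ∀ i (h : i < f.k), F (i + 1) = Int.fract (ξ (σ ⟨i, h⟩)) := by
      intro i h
      simp only [hF, Mf, dif_pos h, Equiv.symm_symm, hz]
      rfl
    have hFk : F (f.k + 1) = 0 := by simp [hF, Mf]
    have hdec : ∀ j ∈ Finset.range (f.k + 1), 0 ≤ F j - F (j + 1) := by
      intro j hj
      rw [Finset.mem_range] at hj
      rcases j with _ | j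
      · rw [hF0]
        by_cases h : 0 < f.k
        · rw [hFs 0 h]
          have := (Int.fract_lt_one (ξ (σ ⟨0, h⟩))).le
          linarith
        · have h0 : f.k = 0 := by omega
          have : F (0 + 1) = 0 := by rw [← hFk, h0]
          rw [this]; norm_num
      · have hj' : j < f.k := by omega
        rw [hFs j hj']
        by_cases h : j + 1 < f.k
        · rw [hFs (j + 1) h]
          have := hmono (show (⟨j, hj'⟩ : Fin f.k) ≤ ⟨j + 1, h⟩ from Nat.le_succ j)
          simp only [Function.comp_apply] at this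
          linarith
        · have h0 : j + 1 + 1 = f.k + 1 := by omega
          rw [h0, hFk]
          have := Int.fract_nonneg (ξ (σ ⟨j, hj'⟩))
          linarith
    have hsum : ∑ j ∈ Finset.range (f.k + 1), (F j - F (j + 1)) = 1 := by
      rw [Finset.sum_range_sub', hF0, hFk, sub_zero]
    have hxe : x = ∑ j ∈ Finset.range (f.k + 1), (F j - F (j + 1)) • toR (av f z σ.symm j) := by
      have e1 : ∀ j, toR (av f z σ.symm j) = toR f.o +
          ∑ i, ((z i : ℝ) + if (σ.symm i : ℕ) < j then 1 else 0) • toR (f.b i) := by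
        intro j
        unfold av
        rw [f.toR_pt]
        congr 1
        refine Finset.sum_congr rfl fun i _ => ?_
        push_cast
        rfl
      have e2 : ∀ i, ∑ j ∈ Finset.range (f.k + 1), (F j - F (j + 1)) *
          ((z i : ℝ) + if (σ.symm i : ℕ) < j then 1 else 0) = ξ i := by
        intro i
        simp only [mul_add]
        rw [Finset.sum_add_distrib, ← Finset.sum_mul, hsum, one_mul,
          sum_telescope, if_pos (by have := (σ.symm i).2; omega), hFk, sub_zero,
          hFs _ (σ.symm i).2]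
        have : σ ⟨(σ.symm i : ℕ), (σ.symm i).2⟩ = i := by simp
        rw [this]
        exact Int.floor_add_fract (ξ i)
      calc x = toR f.o + ∑ i, ξ i • toR (f.b i) := hx
        _ = (∑ j ∈ Finset.range (f.k + 1), (F j - F (j + 1))) • toR f.o +
            ∑ i, (∑ j ∈ Finset.range (f.k + 1), (F j - F (j + 1)) *
              ((z i : ℝ) + if (σ.symm i : ℕ) < j then 1 else 0)) • toR (f.b i) := by
            rw [hsum, one_smul]
            congr 1
            exact Finset.sum_congr rfl fun i _ => by rw [e2 i]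
        _ = ∑ j ∈ Finset.range (f.k + 1), (F j - F (j + 1)) • toR (av f z σ.symm j) := by
            simp only [e1, smul_add, Finset.smul_sum, Finset.sum_add_distrib, Finset.sum_smul]
            congr 1
            rw [Finset.sum_comm]
            refine Finset.sum_congr rfl fun j _ => Finset.sum_congr rfl fun i _ => ?_
            rw [smul_smul]
    rw [hxe]
    unfold hull
    refine (convex_convexHull ℝ _).sum_mem hdec hsum fun j hj => subset_convexHull ℝ _
      ⟨_, Finset.mem_coe.2 ((mem_alc f z σ.symm).2 ⟨j, ?_, rfl⟩), rfl⟩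
    have := Finset.mem_range.1 hj
    omega
  · intro v hv
    obtain ⟨j, _, rfl⟩ := (mem_alc f z σ.symm).1 hv
    refine ⟨_, rfl, fun i => ?_⟩
    have h1 := Int.floor_le (ξ i)
    have h2 := Int.lt_floor_add_one (ξ i)
    rw [abs_le]
    have h3 : (z i : ℝ) = ⌊ξ i⌋ := rfl
    push_cast
    split_ifs <;> constructor <;> linarith

theorem linInd_of_dual {k : ℕ} {c : Fin k → Fin d → ℤ} {θ : Fin k → (Fin d → ℝ) →ₗ[ℝ] ℝ}
    (h : ∀ i j, θ i (toR (c j)) = if i = j then 1 else 0) : LinearIndependent ℤ c := by
  classical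
  rw [Fintype.linearIndependent_iff]
  intro g hg i
  have h1 : θ i (toR (∑ j, g j • c j)) = 0 := by rw [hg, toR_zero, map_zero]
  rw [toR_sum, map_sum, Finset.sum_eq_single i] at h1
  · rw [toR_zsmul, map_smul, h, if_pos rfl, smul_eq_mul, mul_one] at h1
    exact_mod_cast h1
  · intro j _ hj
    rw [toR_zsmul, map_smul, h, if_neg (Ne.symm hj), smul_zero]
  · intro h'; exact absurd (Finset.mem_univ i) h'

theorem alc_unimodular : IsUnimodular (Submodule.span ℤ (Set.range f.b)) (alc f z ρ) := by
  classical
  set c : Fin f.k → Fin d → ℤ :=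
    fun j => ∑ i, (if (ρ i : ℕ) < (j : ℕ) + 1 then (1 : ℤ) else 0) • f.b i with hc
  have hav : ∀ j, av f z ρ j = f.pt z +
      ∑ i, (if (ρ i : ℕ) < j then (1 : ℤ) else 0) • f.b i := by
    intro j
    unfold av Frame.pt
    rw [add_assoc, ← Finset.sum_add_distrib]
    congr 1
    exact Finset.sum_congr rfl fun i _ => by rw [add_smul]
  have hav0 : av f z ρ 0 = f.pt z := by
    rw [hav]; simp
  have hψc : ∀ i j, f.ψ i (toR (c j)) = if (ρ i : ℕ) < (j : ℕ) + 1 then 1 else 0 := by
    intro i j
    simp only [hc]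
    rw [toR_sum, map_sum, Finset.sum_eq_single i]
    · rw [toR_zsmul, map_smul, f.dual, if_pos rfl]
      split_ifs <;> simp
    · intro l _ hl
      rw [toR_zsmul, map_smul, f.dual, if_neg (Ne.symm hl), smul_zero]
    · intro h'; exact absurd (Finset.mem_univ i) h'
  refine ⟨f.k, f.pt z, c, ?_, ?_, ?_⟩
  · refine linInd_of_dual (θ := fun i => f.ψ (ρ.symm i) -
      if h : (i : ℕ) + 1 < f.k then f.ψ (ρ.symm ⟨i + 1, h⟩) else 0) fun i j => ?_
    rw [LinearMap.sub_apply, hψc, Equiv.apply_symm_apply]
    by_cases h : (i : ℕ) + 1 < f.k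
    · rw [dif_pos h, hψc, Equiv.apply_symm_apply]
      by_cases hij : i = j
      · subst hij
        simp
      · have hij' : (i : ℕ) ≠ j := fun h' => hij (Fin.ext h')
        rw [if_neg hij]
        by_cases h2 : (i : ℕ) < j
        · rw [if_pos (by omega), if_pos (by show (i : ℕ) + 1 < j + 1; omega)]; ring
        · rw [if_neg (by omega), if_neg (by show ¬ (i : ℕ) + 1 < j + 1; omega)]; ring
    · rw [dif_neg h, LinearMap.zero_apply, sub_zero]
      by_cases hij : i = j
      · subst hij
        simp
      · have hij' : (i : ℕ) ≠ j := fun h' => hij (Fin.ext h')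
        have := j.2
        have := i.2
        rw [if_neg hij, if_neg (by omega)]
  · apply le_antisymm
    · rw [Submodule.span_le]
      rintro _ ⟨j, rfl⟩
      exact Submodule.sum_mem _ fun i _ => Submodule.smul_mem _ _ (Submodule.subset_span ⟨i, rfl⟩)
    · rw [Submodule.span_le]
      rintro _ ⟨i, rfl⟩
      rcases h0 : (ρ i : ℕ) with _ | r
      · have : f.b i = c (ρ i) := by
          simp only [hc]
          rw [Finset.sum_eq_single i]
          · rw [if_pos (by omega), one_smul]
          · intro l _ hl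
            have : (ρ l : ℕ) ≠ ρ i := fun h' => hl (ρ.injective (Fin.ext h'))
            rw [if_neg (by omega), zero_smul]
          · intro h'; exact absurd (Finset.mem_univ i) h'
        rw [this]
        exact Submodule.subset_span ⟨_, rfl⟩
      · have hr : r < f.k := by have := (ρ i).2; omega
        have : f.b i = c (ρ i) - c ⟨r, hr⟩ := by
          simp only [hc]
          rw [← Finset.sum_sub_distrib, Finset.sum_eq_single i]
          · rw [if_pos (by omega), if_neg (by omega), one_smul, zero_smul, sub_zero]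
          · intro l _ hl
            have : (ρ l : ℕ) ≠ ρ i := fun h' => hl (ρ.injective (Fin.ext h'))
            by_cases h2 : (ρ l : ℕ) < r + 1
            · rw [if_pos (by omega), if_pos h2, sub_self]
            · rw [if_neg (by omega), if_neg h2, sub_self]
          · intro h'; exact absurd (Finset.mem_univ i) h'
        rw [this]
        exact Submodule.sub_mem _ (Submodule.subset_span ⟨_, rfl⟩) (Submodule.subset_span ⟨_, rfl⟩)
  · ext v
    rw [Finset.mem_coe, mem_alc, Set.mem_insert_iff, Set.mem_range]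
    constructor
    · rintro ⟨j, hj, rfl⟩
      rcases j with _ | j
      · exact Or.inl hav0
      · right
        refine ⟨⟨j, by omega⟩, ?_⟩
        rw [hav]
    · rintro (rfl | ⟨i, rfl⟩)
      · exact ⟨0, Nat.zero_le _, hav0⟩
      · exact ⟨i + 1, i.2, by rw [hav]⟩

end alcove

end Pool.MP_554263_co.H47
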