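import Pool.Agent.W_554263_h47.G

/-!
A lattice basis with bounded coordinates (Mahler-Weyl).
-/

set_option autoImplicit false

namespace Pool.MP_554263_co.H47

variable {d : ℕ}

theorem exists_dual {k : ℕ} {v : Fin k → Fin d → ℝ} (h : LinearIndependent ℝ v) :
    ∃ ψ : Fin k → (Fin d → ℝ) →ₗ[ℝ] ℝ, ∀ i j, ψ i (v j) = if i = j then 1 else 0 := by
  classical
  have hinj : Function.Injective (Fintype.linearCombination ℝ v) :=
    linearIndependent_iff_injective_fintypeLinearCombination.1 h
  obtain ⟨g, hg⟩ := (Fintype.linearCombination ℝ v).exists_leftInverse_of_injective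
    (LinearMap.ker_eq_bot.2 hinj)
  refine ⟨fun i => (LinearMap.proj i).comp g, fun i j => ?_⟩
  have h1 := LinearMap.congr_fun hg (Pi.single j 1)
  rw [LinearMap.comp_apply, Fintype.linearCombination_apply_single, one_smul] at h1
  rw [LinearMap.comp_apply, h1, LinearMap.id_apply, LinearMap.proj_apply, Pi.single_apply]

theorem linInd_real {k : ℕ} {v : Fin k → Fin d → ℝ} {θ : Fin k → (Fin d → ℝ) →ₗ[ℝ] ℝ}
    (h : ∀ i j, θ i (v j) = if i = j then 1 else 0) : LinearIndependent ℝ v := by
  classical
  rw [Fintype.linearIndependent_iff]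
  intro g hg i
  have h1 : θ i (∑ j, g j • v j) = 0 := by rw [hg, map_zero]
  rw [map_sum, Finset.sum_eq_single i] at h1
  · rwa [map_smul, h, if_pos rfl, smul_eq_mul, mul_one] at h1
  · intro j _ hj
    rw [map_smul, h, if_neg (Ne.symm hj), smul_zero]
  · intro h'; exact absurd (Finset.mem_univ i) h'

theorem psi_sum {k : ℕ} {v : Fin k → Fin d → ℝ} {θ : Fin k → (Fin d → ℝ) →ₗ[ℝ] ℝ}
    (h : ∀ i j, θ i (v j) = if i = j then 1 else 0) (α : Fin k → ℝ) (i : Fin k) :
    θ i (∑ j, α j • v j) = α i := by
  classical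
  rw [map_sum, Finset.sum_eq_single i]
  · rw [map_smul, h, if_pos rfl, smul_eq_mul, mul_one]
  · intro j _ hj
    rw [map_smul, h, if_neg (Ne.symm hj), smul_zero]
  · intro h'; exact absurd (Finset.mem_univ i) h'

/-- the lattice points of the parallelepiped with last coordinate `j`, positive -/
def PP {k : ℕ} (W : Fin k → Fin d → ℤ) (j : Fin k) : Set (Fin d → ℤ) :=
  {x | ∃ α : Fin k → ℝ, (∀ i, 0 ≤ α i ∧ α i ≤ 1) ∧ (∀ i, j < i → α i = 0) ∧ 0 < α j ∧
    toR x = ∑ i, α i • toR (W i)}

theorem PP_finite {k : ℕ} (W : Fin k → Fin d → ℤ) (j : Fin k) : (PP W j).Finite := by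
  classical
  set B : Fin d → ℤ := fun i => ∑ l, |W l i| with hB
  refine (Set.finite_Icc (-B) B).subset ?_
  rintro x ⟨α, h1, _, _, h2⟩
  have h3 : ∀ i, |x i| ≤ B i := by
    intro i
    have h4 := congrFun h2 i
    rw [Finset.sum_apply] at h4
    have h5 : |(x i : ℝ)| ≤ ∑ l, |(W l i : ℝ)| := by
      have h6 : (x i : ℝ) = ∑ l, α l * (W l i : ℝ) := h4
      rw [h6]
      refine (Finset.abs_sum_le_sum_abs _ _).trans (Finset.sum_le_sum fun l _ => ?_)
      rw [abs_mul, abs_of_nonneg (h1 l).1]
      exact mul_le_of_le_one_left (abs_nonneg _) (h1 l).2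
    have h6 : ((|x i| : ℤ) : ℝ) ≤ ((B i : ℤ) : ℝ) := by
      simp only [hB]
      push_cast
      exact h5
    exact_mod_cast h6
  exact ⟨fun i => (abs_le.1 (h3 i)).1, fun i => (abs_le.1 (h3 i)).2⟩

/-- Mahler-Weyl: a basis of the lattice points of a subspace with bounded coordinates -/
theorem exists_basis {k : ℕ} {W : Fin k → Fin d → ℤ} (hW : LinearIndependent ℝ fun i => toR (W i)) :
    ∃ b : Fin k → Fin d → ℤ,
      (∀ j, ∃ α : Fin k → ℝ, (∀ i, 0 ≤ α i ∧ α i ≤ 1) ∧ toR (b j) = ∑ i, α i • toR (W i)) ∧
      (∀ x : Fin d → ℤ, toR x ∈ Submodule.span ℝ (Set.range fun i => toR (W i)) →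
        x ∈ Submodule.span ℤ (Set.range b)) ∧
      (LinearIndependent ℝ fun i => toR (b i)) ∧
      Submodule.span ℝ (Set.range fun i => toR (b i)) =
        Submodule.span ℝ (Set.range fun i => toR (W i)) := by
  classical
  obtain ⟨ψ, hψ⟩ := exists_dual hW
  have hψs := psi_sum hψ
  have hne : ∀ j, (PP W j).Nonempty := by
    intro j
    refine ⟨W j, Pi.single j 1, ?_, ?_, by simp, ?_⟩
    · intro i
      rw [Pi.single_apply]
      split_ifs <;> norm_num
    · intro i hi
      rw [Pi.single_apply, if_neg hi.ne']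
    · rw [Finset.sum_eq_single j]
      · simp
      · intro l _ hl
        rw [Pi.single_apply, if_neg hl, zero_smul]
      · intro h; exact absurd (Finset.mem_univ j) h
  have hmin := fun j => Set.exists_min_image (PP W j) (fun x => ψ j (toR x)) (PP_finite W j) (hne j)
  choose b hb hbmin using hmin
  choose β hβ1 hβ2 hβ3 hβ4 using hb
  -- minimality for all lattice points
  have key : ∀ (j : Fin k) (x : Fin d → ℤ) (α : Fin k → ℝ), toR x = ∑ i, α i • toR (W i) →
      (∀ i, j < i → α i = 0) → 0 < α j → β j j ≤ α j := by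
    intro j x α hx h0 hpos
    rcases le_or_gt (α j) 1 with h1 | h1
    · have e1 : toR (x - ∑ i, (if i < j then ⌊α i⌋ else 0) • W i) =
          toR x - ∑ i, ((if i < j then ⌊α i⌋ else 0 : ℤ) : ℝ) • toR (W i) := by
        have e2 : toR x = toR ((x - ∑ i, (if i < j then ⌊α i⌋ else 0) • W i) +
          ∑ i, (if i < j then ⌊α i⌋ else 0) • W i) := by rw [sub_add_cancel]
        rw [e2, toR_add, toR_sum]
        simp only [toR_zsmul]
        rw [add_sub_cancel_right]
      obtain ⟨α', hα1, hα2⟩ : ∃ α' : Fin k → ℝ, (∀ i, i < j → α' i = Int.fract (α i)) ∧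
          ∀ i, ¬ i < j → α' i = α i :=
        ⟨fun i => if i < j then Int.fract (α i) else α i, fun i hi => by simp [hi],
          fun i hi => by simp [hi]⟩
      have hy : x - ∑ i, (if i < j then ⌊α i⌋ else 0) • W i ∈ PP W j := by
        refine ⟨α', ?_, ?_, ?_, ?_⟩
        · intro i
          by_cases h2 : i < j
          · rw [hα1 i h2]; exact ⟨Int.fract_nonneg _, (Int.fract_lt_one _).le⟩
          · rw [hα2 i h2]
            rcases lt_or_eq_of_le (not_lt.1 h2) with h3 | h3
            · rw [h0 i h3]; norm_num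
            · rw [← h3]; exact ⟨hpos.le, h1⟩
        · intro i hi
          rw [hα2 i (not_lt.2 hi.le)]
          exact h0 i hi
        · rw [hα2 j (lt_irrefl j)]; exact hpos
        · rw [e1, hx, ← Finset.sum_sub_distrib]
          refine Finset.sum_congr rfl fun i _ => ?_
          rw [← sub_smul]
          congr 1
          by_cases h2 : i < j
          · rw [hα1 i h2, if_pos h2]
            exact (Int.self_sub_floor (α i))
          · rw [hα2 i h2, if_neg h2]
            simp
      have h2 := hbmin j _ hy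
      have h3 : ψ j (toR (x - ∑ i, (if i < j then ⌊α i⌋ else 0) • W i)) = α j := by
        rw [e1, map_sub, hx, hψs, hψs, if_neg (lt_irrefl j)]
        simp
      rw [h3, hβ4 j, hψs] at h2
      exact h2
    · exact ((hβ1 j j).2).trans h1.le
  have hspan : ∀ r : ℕ, ∀ (x : Fin d → ℤ) (α : Fin k → ℝ), toR x = ∑ i, α i • toR (W i) →
      (∀ i : Fin k, r ≤ (i : ℕ) → α i = 0) → x ∈ Submodule.span ℤ (Set.range b) := by
    intro r
    induction r with
    | zero =>
      intro x α hx h0
      have : toR x = toR (0 : Fin d → ℤ) := by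
        rw [hx, toR_zero]
        exact Finset.sum_eq_zero fun i _ => by rw [h0 i (Nat.zero_le _), zero_smul]
      rw [toR_injective this]
      exact Submodule.zero_mem _
    | succ r ih =>
      intro x α hx h0
      by_cases hr : r < k
      · set j : Fin k := ⟨r, hr⟩ with hj
        have hpos : 0 < β j j := hβ3 j
        set n : ℤ := ⌊α j / β j j⌋ with hn
        have h1 := Int.floor_le (α j / β j j)
        have h2 := Int.lt_floor_add_one (α j / β j j)
        rw [← hn] at h1 h2
        have h3 : (n : ℝ) * β j j ≤ α j := by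
          rwa [le_div_iff₀ hpos] at h1
        have h4 : α j < ((n : ℝ) + 1) * β j j := by
          rwa [div_lt_iff₀ hpos] at h2
        have hy : toR (x - n • b j) = ∑ i, (α i - n * β j i) • toR (W i) := by
          have e2 : toR x = toR ((x - n • b j) + n • b j) := by rw [sub_add_cancel]
          rw [toR_add, toR_zsmul, hβ4 j, hx] at e2
          rw [← sub_eq_iff_eq_add] at e2
          rw [← e2, Finset.smul_sum, ← Finset.sum_sub_distrib]
          exact Finset.sum_congr rfl fun i _ => by rw [sub_smul, smul_smul]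
        have h0' : ∀ i, j < i → α i - n * β j i = 0 := by
          intro i hi
          rw [h0 i (by rw [hj, Fin.lt_def] at hi; exact hi), hβ2 j i hi, mul_zero, sub_zero]
        have hz : α j - n * β j j = 0 := by
          by_contra hne
          have hp : 0 < α j - n * β j j := lt_of_le_of_ne (by linarith) (Ne.symm hne)
          have := key j _ _ hy h0' hp
          linarith
        have h5 := ih _ _ hy (by
          intro i hi
          rcases lt_or_eq_of_le hi with h6 | h6
          · exact h0' i (by rw [hj, Fin.lt_def]; exact h6)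
          · have : i = j := Fin.ext h6.symm
            rw [this]; exact hz)
        have h6 : x = (x - n • b j) + n • b j := by rw [sub_add_cancel]
        rw [h6]
        exact Submodule.add_mem _ h5 (Submodule.smul_mem _ _ (Submodule.subset_span ⟨j, rfl⟩))
      · exact ih x α hx fun i hi => h0 i (by have := i.2; omega)
  have hii : ∀ x : Fin d → ℤ, toR x ∈ Submodule.span ℝ (Set.range fun i => toR (W i)) →
        x ∈ Submodule.span ℤ (Set.range b) := by
    intro x hx
    obtain ⟨α, hα⟩ := (Submodule.mem_span_range_iff_exists_fun ℝ).1 hx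
    exact hspan k x α hα.symm fun i hi => absurd i.2 (not_lt.2 hi)
  have hmap : ∀ x ∈ Submodule.span ℤ (Set.range b),
      toR x ∈ Submodule.span ℝ (Set.range fun i => toR (b i)) := by
    intro x hx
    obtain ⟨α, hα⟩ := (Submodule.mem_span_range_iff_exists_fun ℤ).1 hx
    rw [← hα, toR_sum]
    exact Submodule.sum_mem _ fun i _ => by
      rw [toR_zsmul]
      exact Submodule.smul_mem _ _ (Submodule.subset_span ⟨i, rfl⟩)
  have hspaneq : Submodule.span ℝ (Set.range fun i => toR (b i)) =
        Submodule.span ℝ (Set.range fun i => toR (W i)) := by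
    apply le_antisymm
    · rw [Submodule.span_le]
      rintro _ ⟨j, rfl⟩
      simp only
      rw [hβ4 j]
      exact Submodule.sum_mem _ fun i _ =>
        Submodule.smul_mem _ _ (Submodule.subset_span ⟨i, rfl⟩)
    · rw [Submodule.span_le]
      rintro _ ⟨j, rfl⟩
      exact hmap _ (hii _ (Submodule.subset_span ⟨j, rfl⟩))
  refine ⟨b, fun j => ⟨β j, hβ1 j, hβ4 j⟩, hii, ?_, hspaneq⟩
  rw [linearIndependent_iff_card_eq_finrank_span]
  unfold Set.finrank
  rw [hspaneq]
  exact linearIndependent_iff_card_eq_finrank_span.1 hW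

end Pool.MP_554263_co.H47
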