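import Pool.Agent.W_554263_h47.H

/-!
Faces: minimal faces and frames of faces.
-/

set_option autoImplicit false

namespace Pool.MP_554263_co.H47

variable {d : ℕ}

/-- the minimal face of `x` in the convex set `Q` -/
def mf (Q : Set (Fin d → ℝ)) (x : Fin d → ℝ) : Set (Fin d → ℝ) :=
  {y | y ∈ Q ∧ ∃ ε : ℝ, 0 < ε ∧ x + ε • (x - y) ∈ Q}

theorem mf_subset {Q F : Set (Fin d → ℝ)} (hF : IsExtreme ℝ Q F) {x : Fin d → ℝ} (hx : x ∈ F) :
    mf Q x ⊆ F := by
  rintro y ⟨hy, ε, hε, hy'⟩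
  refine hF.left_mem_of_mem_openSegment hy hy' hx ?_
  refine ⟨ε / (1 + ε), 1 / (1 + ε), by positivity, by positivity, by field_simp; ring, ?_⟩
  funext i
  simp only [Pi.add_apply, Pi.smul_apply, Pi.sub_apply, smul_eq_mul]
  field_simp
  ring

theorem self_mem_mf {Q : Set (Fin d → ℝ)} {x : Fin d → ℝ} (hx : x ∈ Q) : x ∈ mf Q x :=
  ⟨hx, 1, one_pos, by simpa using hx⟩

theorem mf_extreme {Q : Set (Fin d → ℝ)} (hQ : Convex ℝ Q) (x : Fin d → ℝ) :
    IsExtreme ℝ Q (mf Q x) := by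
  refine ⟨fun y hy => hy.1, ?_⟩
  rintro p hp r hr y ⟨hy, ε, hε, hy'⟩ ⟨s, t, hs, ht, hst, rfl⟩
  refine ⟨hp, ε * s / (1 + ε * t), by positivity, ?_⟩
  have h1 : 0 < 1 + ε * t := by positivity
  have h2 := hQ hy' hr (a := 1 / (1 + ε * t)) (b := ε * t / (1 + ε * t)) (by positivity)
    (by positivity) (by field_simp)
  convert h2 using 1
  funext i
  simp only [Pi.add_apply, Pi.smul_apply, Pi.sub_apply, smul_eq_mul]
  have hs' : s = 1 - t := by linarith
  subst hs'
  field_simp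
  ring

theorem mf_convex {Q : Set (Fin d → ℝ)} (hQ : Convex ℝ Q) {x : Fin d → ℝ} (hx : x ∈ Q) :
    Convex ℝ (mf Q x) := by
  rintro y ⟨hy, ε, hε, hy'⟩ z ⟨hz, δ, hδ, hz'⟩ a b ha hb hab
  refine ⟨hQ hy hz ha hb hab, min ε δ, lt_min hε hδ, ?_⟩
  have key : ∀ (w : Fin d → ℝ) (θ : ℝ), 0 < θ → x + θ • (x - w) ∈ Q → min ε δ ≤ θ →
      x + min ε δ • (x - w) ∈ Q := by
    intro w θ hθ hw hle
    have hm : 0 < min ε δ := lt_min hε hδ
    have h2 := hQ hx hw (a := 1 - min ε δ / θ) (b := min ε δ / θ)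
      (by rw [sub_nonneg, div_le_one hθ]; exact hle) (by positivity) (by ring)
    convert h2 using 1
    funext i
    simp only [Pi.add_apply, Pi.smul_apply, Pi.sub_apply, smul_eq_mul]
    field_simp
    ring
  have h1 := key y ε hε hy' (min_le_left _ _)
  have h2 := key z δ hδ hz' (min_le_right _ _)
  convert hQ h1 h2 ha hb hab using 1
  funext i
  simp only [Pi.add_apply, Pi.smul_apply, Pi.sub_apply, smul_eq_mul]
  have ha' : a = 1 - b := by linarith
  subst ha'
  ring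

theorem extreme_support {A : Finset (Fin d → ℤ)} {F : Set (Fin d → ℝ)}
    (hF : IsExtreme ℝ (hull A) F) {x : Fin d → ℝ} (hx : x ∈ F) {l : (Fin d → ℤ) → ℝ}
    (hl : IsRep A x l) : ∀ a, l a ≠ 0 → toR a ∈ F := by
  classical
  intro a ha
  have haA : a ∈ A := by
    by_contra h
    exact ha (hl.off a h)
  have hpos : 0 < l a := lt_of_le_of_ne (hl.nonneg a) (Ne.symm ha)
  have haH : toR a ∈ hull A := subset_convexHull ℝ _ ⟨a, haA, rfl⟩
  have h1 := hl.one
  rw [← Finset.add_sum_erase A _ haA] at h1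
  have h2 := hl.eq
  rw [← Finset.add_sum_erase A _ haA] at h2
  have h0 : 0 ≤ ∑ b ∈ A.erase a, l b := Finset.sum_nonneg fun b _ => hl.nonneg b
  rcases lt_or_eq_of_le (show l a ≤ 1 by linarith) with hlt | heq
  · set r := 1 - l a with hr
    have hrpos : 0 < r := by rw [hr]; linarith
    set y := ∑ b ∈ A.erase a, (l b / r) • toR b with hy
    have hyH : y ∈ hull A := by
      refine (convex_convexHull ℝ _).sum_mem (fun b _ => div_nonneg (hl.nonneg b) hrpos.le) ?_
        (fun b hb => subset_convexHull ℝ _ ⟨b, Finset.mem_of_mem_erase hb, rfl⟩)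
      rw [← Finset.sum_div, div_eq_one_iff_eq hrpos.ne']
      linarith
    refine hF.left_mem_of_mem_openSegment haH hyH hx ⟨l a, r, hpos, hrpos, by rw [hr]; ring, ?_⟩
    rw [← h2, hy, Finset.smul_sum]
    congr 1
    refine Finset.sum_congr rfl fun b _ => ?_
    rw [smul_smul]
    congr 1
    field_simp
  · have h3 : ∀ b ∈ A.erase a, l b = 0 := by
      have : ∑ b ∈ A.erase a, l b = 0 := by linarith
      exact (Finset.sum_eq_zero_iff_of_nonneg fun b _ => hl.nonneg b).1 this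
    rw [heq, one_smul, Finset.sum_eq_zero fun b hb => by rw [h3 b hb, zero_smul], add_zero] at h2
    rw [h2]; exact hx

/-- the lattice points of the direction space of `F` -/
def dirLattice (F : Set (Fin d → ℝ)) : Submodule ℤ (Fin d → ℤ) where
  carrier := {x | toR x ∈ vectorSpan ℝ F}
  add_mem' {a b} ha hb := by
    show toR (a + b) ∈ vectorSpan ℝ F
    rw [toR_add]
    exact Submodule.add_mem _ ha hb
  zero_mem' := by
    show toR 0 ∈ vectorSpan ℝ F
    rw [toR_zero]
    exact Submodule.zero_mem _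
  smul_mem' n a ha := by
    show toR (n • a) ∈ vectorSpan ℝ F
    rw [toR_zsmul]
    exact Submodule.smul_mem _ _ ha

theorem mem_dirLattice {F : Set (Fin d → ℝ)} {x : Fin d → ℤ} :
    x ∈ dirLattice F ↔ toR x ∈ vectorSpan ℝ F := Iff.rfl

end Pool.MP_554263_co.H47
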