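import Pool.Agent.W_554263_h47.J

/-!
Frames of the faces of a dilated lattice polytope.
-/

set_option autoImplicit false

namespace Pool.MP_554263_co.H47

variable {d : ℕ}

/-- the constant -/
def K0 (d : ℕ) : ℕ := 2 * (d + 1) ^ 3

structure GoodFrame (c : ℕ) (F : Set (Fin d → ℝ)) (f : Frame d) (g : Fin d → ℝ) : Prop where
  g0 : g ∈ F
  g2 : ∀ a, toR a ∈ F → ∃ n, a = f.pt n
  g3 : ∀ x ∈ F, x = toR f.o + ∑ i, f.co x i • toR (f.b i)
  g5 : Submodule.span ℤ (Set.range f.b) = dirLattice F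
  g4 : ∀ p ∈ F, ∀ δ : Fin f.k → ℝ, (∀ i, |δ i| ≤ 2) → ∀ v,
    v = (1 - (K0 d : ℝ) / c) • p + ((K0 d : ℝ) / c) • g + ∑ i, δ i • toR (f.b i) →
    v ∈ F ∧ ∀ y ∈ F, ∃ ε : ℝ, 0 < ε ∧ v + ε • (v - y) ∈ F

/-- dilated vertices -/
noncomputable def dil (c : ℕ) (V0 : Finset (Fin d → ℤ)) : Finset (Fin d → ℤ) := by
  classical
  exact V0.image fun v => (c : ℤ) • v

theorem mem_dil {c : ℕ} {V0 : Finset (Fin d → ℤ)} {a : Fin d → ℤ} :
    a ∈ dil c V0 ↔ ∃ v ∈ V0, (c : ℤ) • v = a := by
  classical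
  unfold dil
  rw [Finset.mem_image]

theorem exists_points (V0 : Finset (Fin d → ℤ)) (c : ℕ) (hc : 0 < c) (F : Set (Fin d → ℝ))
    (hFe : IsExtreme ℝ (hull (dil c V0)) F) (hFn : F.Nonempty) :
    ∃ (k : ℕ) (u : Fin (k + 1) → Fin d → ℤ), (∀ i, (c : ℝ) • toR (u i) ∈ F) ∧
      LinearIndependent ℝ (fun i : Fin k => toR (u i.succ - u 0)) ∧
      ∀ x ∈ F, x - (c : ℝ) • toR (u 0) ∈
        Submodule.span ℝ (Set.range fun i : Fin k => toR (u i.succ - u 0)) := by
  classical
  set VF := V0.filter fun v => toR ((c : ℤ) • v) ∈ F with hVF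
  have hrep : ∀ x ∈ F, ∃ l, IsRep (dil c V0) x l ∧ ∀ a, l a ≠ 0 → toR a ∈ F := by
    intro x hx
    obtain ⟨l, hl⟩ := mem_hull_iff.1 (hFe.subset hx)
    exact ⟨l, hl, extreme_support hFe hx hl⟩
  have hVFn : VF.Nonempty := by
    obtain ⟨x, hx⟩ := hFn
    obtain ⟨l, hl, hl'⟩ := hrep x hx
    have : ∃ a ∈ dil c V0, l a ≠ 0 := by
      by_contra hcon
      push Not at hcon
      have := hl.one
      rw [Finset.sum_eq_zero hcon] at this
      norm_num at this
    obtain ⟨a, ha, ha0⟩ := this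
    obtain ⟨v, hv, rfl⟩ := mem_dil.1 ha
    exact ⟨v, Finset.mem_filter.2 ⟨hv, hl' _ ha0⟩⟩
  obtain ⟨t, ht1, ht2, ht3⟩ := exists_affineIndependent ℝ (Fin d → ℝ)
    (toR '' (VF : Set (Fin d → ℤ)))
  have htfin : t.Finite := (VF.finite_toSet.image toR).subset ht1
  have : Fintype t := htfin.fintype
  have htne : t.Nonempty := by
    rw [Set.nonempty_iff_ne_empty]
    intro h
    rw [h, AffineSubspace.span_empty] at ht2
    have h2 : (toR '' (VF : Set (Fin d → ℤ))).Nonempty := hVFn.to_set.image _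
    have := (affineSpan_nonempty ℝ).2 h2
    rw [← ht2] at this
    exact this.ne_empty rfl
  have hcard : ∃ k, Fintype.card t = k + 1 := by
    have : Nonempty t := htne.to_subtype
    exact ⟨Fintype.card t - 1, by have := Fintype.card_pos (α := t); omega⟩
  obtain ⟨k, hk⟩ := hcard
  let e : Fin (k + 1) ≃ t := (Fintype.equivFinOfCardEq hk).symm
  have hu : ∀ i, ∃ u ∈ VF, toR u = (e i : Fin d → ℝ) := by
    intro i
    obtain ⟨u, hu, h⟩ := ht1 (e i).2
    exact ⟨u, hu, h⟩
  choose u hu1 hu2 using hu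
  have haff : AffineIndependent ℝ fun i : Fin (k + 1) => toR (u i) := by
    have h1 := ht3.comp_embedding e.toEmbedding
    have h2 : (fun i : Fin (k + 1) => toR (u i)) = ((↑) : t → Fin d → ℝ) ∘ e.toEmbedding := by
      funext i
      exact hu2 i
    rw [h2]; exact h1
  have hsub : ∀ i : Fin k, toR (u i.succ - u 0) = toR (u i.succ) - toR (u 0) := by
    intro i
    have : toR (u i.succ) = toR ((u i.succ - u 0) + u 0) := by rw [sub_add_cancel]
    rw [toR_add] at this
    rw [this]; abel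
  refine ⟨k, u, ?_, ?_, ?_⟩
  · intro i
    have h1 := (Finset.mem_filter.1 (hu1 i)).2
    rw [toR_zsmul] at h1
    exact_mod_cast h1
  · have h1 := (affineIndependent_iff_linearIndependent_vsub ℝ _ (0 : Fin (k + 1))).1 haff
    have h2 := h1.comp (fun i : Fin k => (⟨i.succ, Fin.succ_ne_zero i⟩ : {x : Fin (k + 1) // x ≠ 0}))
      (fun i j hij => Fin.succ_injective _ (congrArg Subtype.val hij))
    simp only [hsub]
    exact h2
  · set S := Submodule.span ℝ (Set.range fun i : Fin k => toR (u i.succ - u 0)) with hS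
    have hvs : vectorSpan ℝ (Set.range fun i : Fin (k + 1) => toR (u i)) ≤ S := by
      rw [vectorSpan_range_eq_span_range_vsub_right ℝ _ (0 : Fin (k + 1)), Submodule.span_le]
      rintro _ ⟨i, rfl⟩
      refine Fin.cases ?_ (fun j => ?_) i
      · simp only [vsub_eq_sub, sub_self]
        exact S.zero_mem
      · simp only [vsub_eq_sub]
        rw [← hsub j]
        exact Submodule.subset_span ⟨j, rfl⟩
    have hrange : Set.range (fun i : Fin (k + 1) => toR (u i)) = t := by
      ext y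
      constructor
      · rintro ⟨i, rfl⟩
        simp only [hu2]
        exact (e i).2
      · intro hy
        exact ⟨e.symm ⟨y, hy⟩, by simp [hu2]⟩
    have hv : ∀ v ∈ VF, toR v - toR (u 0) ∈ S := by
      intro v hv
      have h1 : toR v ∈ affineSpan ℝ t := by
        rw [ht2]
        exact subset_affineSpan ℝ _ ⟨v, hv, rfl⟩
      have h2 : toR (u 0) ∈ affineSpan ℝ t := by
        rw [ht2]
        exact subset_affineSpan ℝ _ ⟨u 0, hu1 0, rfl⟩
      have h3 := AffineSubspace.vsub_mem_direction h1 h2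
      rw [direction_affineSpan, ← hrange] at h3
      exact hvs h3
    intro x hx
    obtain ⟨l, hl, hl'⟩ := hrep x hx
    have hx2 : x - (c : ℝ) • toR (u 0) =
        ∑ a ∈ dil c V0, l a • (toR a - (c : ℝ) • toR (u 0)) := by
      simp only [smul_sub]
      rw [Finset.sum_sub_distrib, hl.eq, ← Finset.sum_smul, hl.one, one_smul]
    rw [hx2]
    refine Submodule.sum_mem _ fun a ha => ?_
    by_cases ha0 : l a = 0
    · rw [ha0, zero_smul]; exact S.zero_mem
    · obtain ⟨v, hv0, rfl⟩ := mem_dil.1 ha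
      have hvF : v ∈ VF := Finset.mem_filter.2 ⟨hv0, hl' _ ha0⟩
      have h1 : toR ((c : ℤ) • v) - (c : ℝ) • toR (u 0) = (c : ℝ) • (toR v - toR (u 0)) := by
        rw [toR_zsmul, smul_sub]
        push_cast
        rfl
      rw [h1]
      exact S.smul_mem _ (S.smul_mem _ (hv v hvF))

theorem exists_frame (V0 : Finset (Fin d → ℤ)) (c : ℕ) (hc : K0 d < c) (F : Set (Fin d → ℝ))
    (hFe : IsExtreme ℝ (hull (dil c V0)) F) (hFc : Convex ℝ F) (hFn : F.Nonempty) :
    ∃ f g, GoodFrame c F f g := by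
  classical
  have hc0 : 0 < c := by omega
  have hcR : (0 : ℝ) < c := by exact_mod_cast hc0
  have hKpos : (0 : ℝ) < K0 d := by
    have : 0 < K0 d := by unfold K0; positivity
    exact_mod_cast this
  have hKc : (K0 d : ℝ) / c ≤ 1 := by
    rw [div_le_one hcR]
    exact_mod_cast hc.le
  obtain ⟨k, u, hu, hLI, hspan⟩ := exists_points V0 c hc0 F hFe hFn
  set W : Fin k → Fin d → ℤ := fun i => u i.succ - u 0 with hW
  have hkd : k ≤ d := by
    have := hLI.fintype_card_le_finrank
    rwa [Fintype.card_fin, Module.finrank_fin_fun] at this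
  have hWR : ∀ i, toR (W i) = toR (u i.succ) - toR (u 0) := by
    intro i
    have : toR (u i.succ) = toR ((u i.succ - u 0) + u 0) := by rw [sub_add_cancel]
    rw [toR_add] at this
    rw [this]; simp [hW]
  obtain ⟨b, hb1, hb2, hb3, hb4⟩ := exists_basis (W := W) hLI
  choose α hα1 hα2 using hb1
  obtain ⟨ψ, hψ⟩ := exists_dual hb3
  -- the vector span
  have hVS : vectorSpan ℝ F = Submodule.span ℝ (Set.range fun i => toR (W i)) := by
    apply le_antisymm
    · unfold vectorSpan
      rw [Submodule.span_le]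
      rintro _ ⟨x, hx, y, hy, rfl⟩
      have h1 := hspan x hx
      have h2 := hspan y hy
      have h3 := Submodule.sub_mem _ h1 h2
      rw [sub_sub_sub_cancel_right] at h3
      exact h3
    · rw [Submodule.span_le]
      rintro _ ⟨i, rfl⟩
      have h1 := vsub_mem_vectorSpan ℝ (hu i.succ) (hu 0)
      rw [vsub_eq_sub, ← smul_sub, ← hWR] at h1
      have h2 := Submodule.smul_mem _ (c : ℝ)⁻¹ h1
      rwa [smul_smul, inv_mul_cancel₀ hcR.ne', one_smul] at h2
  set κ : ℝ := (K0 d : ℝ) / (k + 1) with hκ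
  have hk1 : (0 : ℝ) < (k : ℝ) + 1 := by positivity
  have hκ1 : 2 * ((k : ℝ) + 1) ^ 2 ≤ κ := by
    rw [hκ, le_div_iff₀ hk1]
    unfold K0
    push_cast
    have h1 : ((k : ℝ) + 1) ≤ (d : ℝ) + 1 := by
      have : (k : ℝ) ≤ d := by exact_mod_cast hkd
      linarith
    have h2 : ((k : ℝ) + 1) ^ 3 ≤ ((d : ℝ) + 1) ^ 3 := by gcongr
    nlinarith
  set g : Fin d → ℝ := ∑ i : Fin (k + 1), (1 / ((k : ℝ) + 1)) • ((c : ℝ) • toR (u i)) with hg
  have hgF : g ∈ F := by
    refine hFc.sum_mem (fun i _ => by positivity) ?_ (fun i _ => hu i)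
    rw [Finset.sum_const, Finset.card_univ, Fintype.card_fin, nsmul_eq_mul]
    push_cast
    field_simp
  -- convexity
  have hL1 : ∀ p ∈ F, ∀ γ : Fin (k + 1) → ℝ, (∀ i, 0 ≤ γ i) → ∑ i, γ i = K0 d →
      (1 - (K0 d : ℝ) / c) • p + ∑ i, γ i • toR (u i) ∈ F := by
    intro p hp γ hγ hsum
    have h1 : ∑ i, (γ i / K0 d) • ((c : ℝ) • toR (u i)) ∈ F := by
      refine hFc.sum_mem (fun i _ => div_nonneg (hγ i) hKpos.le) ?_ (fun i _ => hu i)
      rw [← Finset.sum_div, hsum, div_self hKpos.ne']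
    have h2 := hFc hp h1 (a := 1 - (K0 d : ℝ) / c) (b := (K0 d : ℝ) / c) (by linarith)
      (by positivity) (by ring)
    convert h2 using 2
    rw [Finset.smul_sum]
    refine Finset.sum_congr rfl fun i _ => ?_
    rw [smul_smul, smul_smul]
    congr 1
    field_simp
  have hL2 : ∀ p ∈ F, ∀ β : Fin k → ℝ, (∀ i, -κ ≤ β i) → ∑ i, β i ≤ κ →
      (1 - (K0 d : ℝ) / c) • p + ((K0 d : ℝ) / c) • g + ∑ i, β i • toR (W i) ∈ F := by
    intro p hp β hβ hsum
    set γ : Fin (k + 1) → ℝ := Fin.cons (κ - ∑ i, β i) fun i => κ + β i with hγ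
    have hγ0 : γ 0 = κ - ∑ i, β i := rfl
    have hγs : ∀ i : Fin k, γ i.succ = κ + β i := fun i => rfl
    have h1 := hL1 p hp γ ?_ ?_
    · convert h1 using 1
      rw [add_assoc]
      congr 1
      have e1 : ((K0 d : ℝ) / c) • g = ∑ i, κ • toR (u i) := by
        rw [hg, Finset.smul_sum]
        refine Finset.sum_congr rfl fun i _ => ?_
        rw [smul_smul, smul_smul]
        congr 1
        rw [hκ]
        field_simp
      rw [e1, Fin.sum_univ_succ, Fin.sum_univ_succ, hγ0, sub_smul, Finset.sum_smul]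
      simp only [hγs, hWR, smul_sub, add_smul]
      rw [Finset.sum_add_distrib, Finset.sum_sub_distrib]
      abel
    · intro i
      refine Fin.cases ?_ (fun j => ?_) i
      · rw [hγ0]; linarith
      · rw [hγs]; linarith [hβ j]
    · rw [Fin.sum_univ_succ, hγ0]
      simp only [hγs]
      rw [Finset.sum_add_distrib, Finset.sum_const, Finset.card_univ, Fintype.card_fin,
        nsmul_eq_mul]
      have : κ * (k + 1) = K0 d := by rw [hκ]; field_simp
      linarith
  set f : Frame d := ⟨k, (c : ℤ) • u 0, b, ψ, hψ⟩ with hf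
  have hfo : toR f.o = (c : ℝ) • toR (u 0) := by
    show toR ((c : ℤ) • u 0) = _
    rw [toR_zsmul]
    push_cast
    rfl
  have hg3 : ∀ x ∈ F, x = toR f.o + ∑ i, f.co x i • toR (f.b i) := by
    intro x hx
    have h1 := hspan x hx
    rw [← hb4] at h1
    obtain ⟨γ, hγ⟩ := (Submodule.mem_span_range_iff_exists_fun ℝ).1 h1
    have h2 : x = toR f.o + ∑ i : Fin f.k, γ i • toR (f.b i) := by
      rw [hfo]
      have : ∑ i : Fin f.k, γ i • toR (f.b i) = x - (c : ℝ) • toR (u 0) := hγ
      rw [this]; abel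
    have h3 : ∀ i, f.co x i = γ i := by
      intro i
      rw [h2, f.co_add]
    simp only [h3]
    exact h2
  refine ⟨f, g, ⟨hgF, ?_, hg3, ?_, ?_⟩⟩
  · intro a ha
    have h1 : toR (a - (c : ℤ) • u 0) ∈
        Submodule.span ℝ (Set.range fun i => toR (W i)) := by
      have h2 := hspan _ ha
      have h3 : toR a = toR ((a - (c : ℤ) • u 0) + (c : ℤ) • u 0) := by rw [sub_add_cancel]
      rw [toR_add, toR_zsmul] at h3
      rw [h3] at h2
      push_cast at h2
      rw [add_sub_cancel_right] at h2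
      exact h2
    have h2 := hb2 _ h1
    obtain ⟨n, hn⟩ := (Submodule.mem_span_range_iff_exists_fun ℤ).1 h2
    refine ⟨n, ?_⟩
    show a = (c : ℤ) • u 0 + ∑ i, n i • b i
    rw [hn]; abel
  · apply le_antisymm
    · rw [Submodule.span_le]
      rintro _ ⟨i, rfl⟩
      show toR (b i) ∈ vectorSpan ℝ F
      rw [hVS, ← hb4]
      exact Submodule.subset_span ⟨i, rfl⟩
    · intro x hx
      rw [mem_dirLattice, hVS] at hx
      exact hb2 x hx
  · intro p hp δ hδ v hv
    set β : Fin k → ℝ := fun i => ∑ j, δ j * α j i with hβ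
    have e1 : ∑ i, δ i • toR (f.b i) = ∑ i, β i • toR (W i) := by
      have : ∀ j : Fin k, δ j • toR (b j) = ∑ i, (δ j * α j i) • toR (W i) := by
        intro j
        rw [hα2 j, Finset.smul_sum]
        exact Finset.sum_congr rfl fun i _ => by rw [smul_smul]
      show ∑ j : Fin k, δ j • toR (b j) = _
      simp only [this, hβ, Finset.sum_smul]
      rw [Finset.sum_comm]
    rw [e1] at hv
    have hβb : ∀ i, |β i| ≤ 2 * k := by
      intro i
      refine (Finset.abs_sum_le_sum_abs _ _).trans ?_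
      have : ∀ j ∈ Finset.univ, |δ j * α j i| ≤ 2 := by
        intro j _
        rw [abs_mul, abs_of_nonneg (hα1 j i).1]
        have h1 := hδ j
        have h2 := (hα1 j i).2
        have h3 := (hα1 j i).1
        have h4 := abs_nonneg (δ j)
        nlinarith
      refine (Finset.sum_le_sum this).trans ?_
      rw [Finset.sum_const, Finset.card_univ, Fintype.card_fin, nsmul_eq_mul]
      linarith
    have hβs : ∑ i, β i ≤ 2 * k * k := by
      have : ∀ i ∈ Finset.univ, β i ≤ 2 * k := fun i _ => (abs_le.1 (hβb i)).2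
      refine (Finset.sum_le_sum this).trans ?_
      rw [Finset.sum_const, Finset.card_univ, Fintype.card_fin, nsmul_eq_mul]
      linarith
    have hk0 : (0 : ℝ) ≤ k := Nat.cast_nonneg k
    have hvF : v ∈ F := by
      rw [hv]
      refine hL2 p hp β (fun i => ?_) ?_
      · have := (abs_le.1 (hβb i)).1
        nlinarith
      · nlinarith
    refine ⟨hvF, fun y hy => ?_⟩
    have h1 : v - y ∈ Submodule.span ℝ (Set.range fun i => toR (W i)) := by
      have h2 := Submodule.sub_mem _ (hspan v hvF) (hspan y hy)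
      rwa [sub_sub_sub_cancel_right] at h2
    obtain ⟨η, hη⟩ := (Submodule.mem_span_range_iff_exists_fun ℝ).1 h1
    set M : ℝ := 1 + ∑ i, |η i| with hM
    have hMpos : 0 < M := by
      have : 0 ≤ ∑ i, |η i| := Finset.sum_nonneg fun i _ => abs_nonneg _
      linarith
    refine ⟨1 / M, by positivity, ?_⟩
    rw [← hη]
    have e2 : v + (1 / M) • ∑ i, η i • toR (W i) = (1 - (K0 d : ℝ) / c) • p +
        ((K0 d : ℝ) / c) • g + ∑ i, (β i + 1 / M * η i) • toR (W i) := by
      have e3 : ∑ i, (β i + 1 / M * η i) • toR (W i) =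
          ∑ i, β i • toR (W i) + (1 / M) • ∑ i, η i • toR (W i) := by
        rw [Finset.smul_sum, ← Finset.sum_add_distrib]
        exact Finset.sum_congr rfl fun i _ => by rw [add_smul, smul_smul]
      rw [e3, hv, add_assoc]
    rw [e2]
    have hηb : ∀ i, |1 / M * η i| ≤ 1 := by
      intro i
      rw [abs_mul, abs_of_pos (by positivity : (0 : ℝ) < 1 / M), one_div, inv_mul_le_iff₀ hMpos,
        mul_one]
      have h5 : |η i| ≤ ∑ i, |η i| := Finset.single_le_sum (f := fun i => |η i|)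
        (fun i _ => abs_nonneg _) (Finset.mem_univ i)
      linarith
    have hηs : ∑ i, 1 / M * η i ≤ 1 := by
      rw [← Finset.mul_sum, one_div, inv_mul_le_iff₀ hMpos, mul_one]
      have := Finset.sum_le_sum (fun i (_ : i ∈ Finset.univ) => le_abs_self (η i))
      linarith
    refine hL2 p hp _ (fun i => ?_) ?_
    · have h2 := (abs_le.1 (hβb i)).1
      have h3 := (abs_le.1 (hηb i)).1
      nlinarith
    · rw [Finset.sum_add_distrib]
      nlinarith

end Pool.MP_554263_co.H47
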