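import Pool.Agent.W_554263_h47.K

/-!
The triangulation.
-/

set_option autoImplicit false

namespace Pool.MP_554263_co.H47

open Filter

variable {d : ℕ}

instance : Inhabited (Frame d) := ⟨⟨0, 0, Fin.elim0, Fin.elim0, fun i => i.elim0⟩⟩

theorem Qf_pos {k : ℕ} {m : Fin k → ℤ} (h : m ≠ 0) : 0 < Qf m := by
  unfold Qf
  have h1 : 0 ≤ ∑ i, ∑ j, (m i - m j) ^ 2 :=
    Finset.sum_nonneg fun i _ => Finset.sum_nonneg fun j _ => sq_nonneg _
  have h2 : 0 < ∑ i, m i ^ 2 := by
    obtain ⟨i, hi⟩ := Function.ne_iff.1 h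
    have h3 : m i ^ 2 ≤ ∑ i, m i ^ 2 := Finset.single_le_sum (f := fun i => m i ^ 2)
      (fun i _ => sq_nonneg _) (Finset.mem_univ i)
    have h4 : 0 < m i ^ 2 := by
      have : m i ≠ 0 := hi
      positivity
    linarith
  linarith

theorem tangent (f : Frame d) (n0 : Fin f.k → ℤ) : ∃ (L : (Fin d → ℝ) →ₗ[ℝ] ℝ) (c : ℝ),
    (f.q (f.pt n0) : ℝ) = L (toR (f.pt n0)) + c ∧
    ∀ n, n ≠ n0 → L (toR (f.pt n)) + c < f.q (f.pt n) := by
  have hA : Aff fun y => (Qf n0 : ℝ) + ∑ i, (4 * (n0 i : ℝ)) * (f.co y i - n0 i) +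
      ∑ i, ∑ j, (2 * ((n0 i : ℝ) - n0 j)) * ((f.co y i - n0 i) - (f.co y j - n0 j)) := by
    refine ((Aff.const _).add (Aff.sum _ fun i => ?_)).add
      (Aff.sum _ fun i => Aff.sum _ fun j => ?_)
    · exact ((f.aff_co i).sub (Aff.const _)).mul _
    · exact (((f.aff_co i).sub (Aff.const _)).sub ((f.aff_co j).sub (Aff.const _))).mul _
  obtain ⟨L, c, h⟩ := hA
  have hexp : ∀ m : Fin f.k → ℤ, Qf (fun i => n0 i + m i) = Qf n0 + ∑ i, (4 * n0 i) * m i +
      ∑ i, ∑ j, (2 * (n0 i - n0 j)) * (m i - m j) + Qf m := by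
    intro m
    unfold Qf
    have e1 : ∑ i, (n0 i + m i) ^ 2 = ∑ i, n0 i ^ 2 + 2 * ∑ i, n0 i * m i + ∑ i, m i ^ 2 := by
      rw [Finset.mul_sum, ← Finset.sum_add_distrib, ← Finset.sum_add_distrib]
      exact Finset.sum_congr rfl fun i _ => by ring
    have e2 : ∑ i, (4 * n0 i) * m i = 4 * ∑ i, n0 i * m i := by
      rw [Finset.mul_sum]
      exact Finset.sum_congr rfl fun i _ => by ring
    have e4 : ∑ i, ∑ j, ((n0 i + m i) - (n0 j + m j)) ^ 2 = ∑ i, ∑ j, (n0 i - n0 j) ^ 2 +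
        ∑ i, ∑ j, (2 * (n0 i - n0 j)) * (m i - m j) + ∑ i, ∑ j, (m i - m j) ^ 2 := by
      rw [← Finset.sum_add_distrib, ← Finset.sum_add_distrib]
      refine Finset.sum_congr rfl fun i _ => ?_
      rw [← Finset.sum_add_distrib, ← Finset.sum_add_distrib]
      exact Finset.sum_congr rfl fun j _ => by ring
    rw [e1, e2, e4]
    ring
  have key : ∀ n : Fin f.k → ℤ, (f.q (f.pt n) : ℝ) =
      L (toR (f.pt n)) + c + (Qf fun i => n i - n0 i : ℤ) := by
    intro n
    rw [← h, f.q_pt]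
    have h1 := hexp fun i => n i - n0 i
    have h2 : (fun i => n0 i + (n i - n0 i)) = n := by funext i; ring
    rw [h2] at h1
    rw [h1]
    push_cast
    simp only [f.co_pt]
  refine ⟨L, c, ?_, ?_⟩
  · rw [key]
    have : (fun i => n0 i - n0 i) = (0 : Fin f.k → ℤ) := by funext i; simp
    rw [this]
    have h0 : Qf (0 : Fin f.k → ℤ) = 0 := by simp [Qf]
    rw [h0]; simp
  · intro n hn
    rw [key]
    have h1 : 0 < Qf fun i => n i - n0 i := Qf_pos fun h' => hn (by
      funext i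
      have : n i - n0 i = 0 := congrFun h' i
      linarith)
    have h2 : (0 : ℝ) < ((Qf fun i => n i - n0 i : ℤ) : ℝ) := by exact_mod_cast h1
    linarith

/-- the core of the face `F` with centre `g`: the homothetic copy of `F` of ratio `1 - K0 / c` -/
def core (c : ℕ) (F : Set (Fin d → ℝ)) (g : Fin d → ℝ) : Set (Fin d → ℝ) :=
  {x | ∃ p ∈ F, x = (1 - (K0 d : ℝ) / c) • p + ((K0 d : ℝ) / c) • g}

/-- data of the construction -/
structure Data (d : ℕ) where
  c : ℕ
  V0 : Finset (Fin d → ℤ)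
  A : Finset (Fin d → ℤ)
  hc : K0 d < c
  hA : ∀ a, a ∈ A ↔ toR a ∈ hull (dil c V0)

namespace Data

variable (D : Data d)

/-- the polytope -/
def Q : Set (Fin d → ℝ) := hull (dil D.c D.V0)

theorem hQ : Convex ℝ D.Q := convex_convexHull ℝ _

theorem hull_A : hull D.A = D.Q := by
  apply Set.Subset.antisymm
  · refine convexHull_min ?_ D.hQ
    rintro _ ⟨a, ha, rfl⟩
    exact (D.hA a).1 ha
  · apply hull_subset
    intro a ha
    exact (D.hA a).2 (subset_convexHull ℝ _ ⟨a, ha, rfl⟩)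

/-- a face -/
structure Face (F : Set (Fin d → ℝ)) : Prop where
  ext : IsExtreme ℝ D.Q F
  conv : Convex ℝ F
  ne : F.Nonempty

theorem face_mf {x : Fin d → ℝ} (hx : x ∈ D.Q) : D.Face (mf D.Q x) :=
  ⟨mf_extreme D.hQ x, mf_convex D.hQ hx, ⟨x, self_mem_mf hx⟩⟩

open Classical in
/-- the frame of a face -/
noncomputable def fr (F : Set (Fin d → ℝ)) : Frame d :=
  if h : ∃ f g, GoodFrame D.c F f g then h.choose else default

open Classical in
/-- the centre of a face -/
noncomputable def gc (F : Set (Fin d → ℝ)) : Fin d → ℝ :=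
  if h : ∃ f g, GoodFrame D.c F f g then h.choose_spec.choose else 0

theorem good {F : Set (Fin d → ℝ)} (hF : D.Face F) : GoodFrame D.c F (D.fr F) (D.gc F) := by
  have h := exists_frame D.V0 D.c D.hc F hF.ext hF.conv hF.ne
  unfold fr gc
  rw [dif_pos h, dif_pos h]
  exact h.choose_spec.choose_spec

open Classical in
/-- minus the number of lattice points of the minimal face -/
noncomputable def N (a : Fin d → ℤ) : ℤ :=
  -((D.A.filter fun a' => toR a' ∈ mf D.Q (toR a)).card : ℤ)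

/-- the quadratic weight of the minimal face -/
noncomputable def q (a : Fin d → ℤ) : ℤ := (D.fr (mf D.Q (toR a))).q a

/-- exponents -/
def ex (a : Fin d → ℤ) : ℕ := Encodable.encode a + 2

open Classical in
/-- lattice points of a face -/
noncomputable def AF (F : Set (Fin d → ℝ)) : Finset (Fin d → ℤ) := D.A.filter fun a => toR a ∈ F

/-- candidates for cells of `F` -/
structure Cand (F : Set (Fin d → ℝ)) (V : Finset (Fin d → ℤ)) : Prop where
  sub : V ⊆ D.A
  ne : V.Nonempty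
  hmf : ∀ v ∈ V, mf D.Q (toR v) = F
  int : Interp V
  cert : ∃ (L : (Fin d → ℝ) →ₗ[ℝ] ℝ) (c : ℝ), (∀ v ∈ V, ((D.fr F).q v : ℝ) = L (toR v) + c) ∧
    ∀ n, (D.fr F).pt n ∉ V → L (toR ((D.fr F).pt n)) + c < (D.fr F).q ((D.fr F).pt n)

theorem N_of_mf {F : Set (Fin d → ℝ)} {v : Fin d → ℤ} (h : mf D.Q (toR v) = F) :
    D.N v = -((D.AF F).card : ℤ) := by
  unfold N AF
  rw [h]

theorem cand_cell {F : Set (Fin d → ℝ)} (hF : D.Face F) {V : Finset (Fin d → ℤ)}
    (hV : D.Cand F V) : ∀ᶠ t in nhdsWithin (0 : ℝ) (Set.Ioi 0),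
      Cell (D.AF F) (wt D.N D.q ex t) V := by
  classical
  obtain ⟨L, c, h1, h2⟩ := hV.cert
  refine cell_persist (n0 := -((D.AF F).card : ℤ)) (Lq := L) (cq := c) (fun v _ => ?_)
    (fun a _ => ?_) hV.int (fun v hv => D.N_of_mf (hV.hmf v hv)) (fun v hv => ?_)
    (fun a ha haV => ?_)
  · unfold ex; omega
  · unfold ex; omega
  · unfold q
    rw [hV.hmf v hv]
    exact h1 v hv
  · obtain ⟨haA, haF⟩ := Finset.mem_filter.1 ha
    have haQ : toR a ∈ D.Q := (D.hA a).1 haA
    have hsub : mf D.Q (toR a) ⊆ F := mf_subset hF.ext haF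
    by_cases heq : mf D.Q (toR a) = F
    · right
      refine ⟨D.N_of_mf heq, ?_⟩
      obtain ⟨n, hn⟩ := (D.good hF).g2 a haF
      unfold q
      rw [heq, hn]
      apply h2
      rw [← hn]; exact haV
    · left
      obtain ⟨v, hv⟩ := hV.ne
      have hvA := hV.sub hv
      have hvQ : toR v ∈ D.Q := (D.hA v).1 hvA
      have hvF : toR v ∈ F := by
        rw [← hV.hmf v hv]; exact self_mem_mf hvQ
      have hlt : (D.A.filter fun a' => toR a' ∈ mf D.Q (toR a)).card < (D.AF F).card := by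
        apply Finset.card_lt_card
        rw [Finset.ssubset_iff_of_subset]
        · refine ⟨v, Finset.mem_filter.2 ⟨hvA, hvF⟩, fun hv' => ?_⟩
          have h3 : toR v ∈ mf D.Q (toR a) := (Finset.mem_filter.1 hv').2
          have h4 := mf_subset (mf_extreme D.hQ (toR a)) h3
          rw [hV.hmf v hv] at h4
          exact heq (Set.Subset.antisymm hsub h4)
        · intro b hb
          obtain ⟨hb1, hb2⟩ := Finset.mem_filter.1 hb
          exact Finset.mem_filter.2 ⟨hb1, hsub hb2⟩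
      unfold N
      have : ((D.A.filter fun a' => toR a' ∈ mf D.Q (toR a)).card : ℤ) < ((D.AF F).card : ℤ) := by
        exact_mod_cast hlt
      linarith

/-- good weights -/
theorem exists_weights : ∃ w : (Fin d → ℤ) → ℝ, Uniq D.A w ∧
    ∀ F, D.Face F → ∀ V, D.Cand F V → Cell (D.AF F) w V := by
  classical
  have hev : ∀ᶠ t in nhdsWithin (0 : ℝ) (Set.Ioi 0), ∀ A' ∈ D.A.powerset, ∀ V ∈ D.A.powerset,
      (∃ F, D.Face F ∧ D.AF F = A' ∧ D.Cand F V) → Cell A' (wt D.N D.q ex t) V := by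
    rw [eventually_all_finset]
    intro A' _
    rw [eventually_all_finset]
    intro V _
    by_cases h : ∃ F, D.Face F ∧ D.AF F = A' ∧ D.Cand F V
    · obtain ⟨F, hF, rfl, hV⟩ := h
      exact (D.cand_cell hF hV).mono fun t ht _ => ht
    · exact Eventually.of_forall fun t h' => absurd h' h
  obtain ⟨t, _, htr, ht⟩ := exists_transcendental hev
  refine ⟨wt D.N D.q ex t, uniq_of_generic (generic_wt htr (fun a _ => ?_) ?_), ?_⟩
  · unfold ex; omega
  · intro a _ b _ hab
    unfold ex at hab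
    exact Encodable.encode_injective (by omega)
  · intro F hF V hV
    exact ht _ (Finset.mem_powerset.2 (Finset.filter_subset _ _)) V
      (Finset.mem_powerset.2 hV.sub) ⟨F, hF, rfl, hV⟩

end Data

end Pool.MP_554263_co.H47
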