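import Pool.Agent.W_554263_h47.M

/-!
Properties of the triangulation.
-/

set_option autoImplicit false

namespace Pool.MP_554263_co.H47

variable {d : ℕ}

theorem Frame.k_le (f : Frame d) : f.k ≤ d := by
  have h := linInd_real (v := fun j => toR (f.b j)) (θ := f.ψ) f.dual
  have := h.fintype_card_le_finrank
  rwa [Fintype.card_fin, Module.finrank_fin_fun] at this

namespace Data

variable (D : Data d)

theorem mf_eq {F : Set (Fin d → ℝ)} (hF : D.Face F) {v : Fin d → ℝ} (hv : v ∈ F)
    (h : ∀ y ∈ F, ∃ ε : ℝ, 0 < ε ∧ v + ε • (v - y) ∈ F) : mf D.Q v = F := by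
  apply Set.Subset.antisymm (mf_subset hF.ext hv)
  intro y hy
  obtain ⟨ε, hε, h1⟩ := h y hy
  exact ⟨hF.ext.subset hy, ε, hε, hF.ext.subset h1⟩

theorem support_face {F : Set (Fin d → ℝ)} (hF : D.Face F) {S : Finset (Fin d → ℤ)}
    (hS : S ⊆ D.A) {x : Fin d → ℝ} (hx : x ∈ F) {l : (Fin d → ℤ) → ℝ} (hl : IsRep S x l) :
    ∀ a, l a ≠ 0 → a ∈ S ∧ toR a ∈ F := by
  intro a ha
  refine ⟨?_, ?_⟩
  · by_contra h
    exact ha (hl.off a h)
  · exact extreme_support (by rw [D.hull_A]; exact hF.ext) hx (hl.mono hS) a ha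

theorem main_face {w : (Fin d → ℤ) → ℝ}
    (hcell : ∀ F, D.Face F → ∀ V, D.Cand F V → Cell (D.AF F) w V)
    {F : Set (Fin d → ℝ)} (hF : D.Face F) {S : Finset (Fin d → ℤ)} (hS : S ∈ cells D.A w)
    {x : Fin d → ℝ} (hxS : x ∈ hull S) (hx : x ∈ core D.c F (D.gc F)) :
    ∃ U, IsUnimodular (dirLattice F) U ∧ U.card ≤ d + 1 ∧ (∀ u ∈ U, toR u ∈ F) ∧
      ∀ a ∈ S, toR a ∈ F → a ∈ U := by
  classical
  obtain ⟨p, hp, hxe⟩ := hx
  have hg := D.good hF
  set f := D.fr F with hf
  have hxF : x ∈ F := (hg.g4 p hp 0 (by intro i; simp) x (by rw [hxe]; simp)).1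
  have hSA := (mem_cells.1 hS).1
  obtain ⟨l, hl⟩ := mem_hull_iff.1 hxS
  have hls := D.support_face hF hSA hxF hl
  set SF := S.filter fun a => toR a ∈ F with hSF
  have hSFS : SF ⊆ S := Finset.filter_subset _ _
  have hSFn : SF.Nonempty := by
    rw [Finset.nonempty_iff_ne_empty]
    intro h0
    have h1 := hl.one
    rw [Finset.sum_eq_zero fun a ha => by
      by_contra h2
      have h3 := hls a h2
      have : a ∈ SF := Finset.mem_filter.2 h3
      rw [h0] at this
      exact absurd this (Finset.notMem_empty a)] at h1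
    norm_num at h1
  set m : ℝ := (SF.card : ℝ) with hm
  have hmpos : 0 < m := by
    rw [hm]; exact_mod_cast hSFn.card_pos
  set cen : Fin d → ℝ := ∑ a ∈ SF, (1 / m) • toR a with hcen
  have hsum1 : ∑ a ∈ SF, 1 / m = 1 := by
    rw [Finset.sum_const, nsmul_eq_mul, ← hm]; field_simp
  have hcenF : cen ∈ F := hF.conv.sum_mem (fun a _ => by positivity) hsum1
    fun a ha => (Finset.mem_filter.1 ha).2
  set M : ℝ := ∑ i, |f.co cen i - f.co x i| with hM
  have hM0 : 0 ≤ M := Finset.sum_nonneg fun i _ => abs_nonneg _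
  set s : ℝ := 1 / (1 + M) with hs
  have hspos : 0 < s := by positivity
  have hs1 : s ≤ 1 := by
    rw [hs, div_le_one (by positivity)]; linarith
  set x' : Fin d → ℝ := (1 - s) • x + s • cen with hx'
  have hx'F : x' ∈ F := hF.conv hxF hcenF (by linarith) hspos.le (by ring)
  have hco : ∀ i, |f.co x' i - f.co x i| ≤ 1 := by
    intro i
    have e1 : f.co x' i - f.co x i = s * (f.co cen i - f.co x i) := by
      unfold Frame.co
      rw [hx']
      simp only [map_sub, map_add, map_smul, smul_eq_mul]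
      ring
    rw [e1, abs_mul, abs_of_pos hspos]
    have h1 : |f.co cen i - f.co x i| ≤ M := Finset.single_le_sum
      (f := fun i => |f.co cen i - f.co x i|) (fun i _ => abs_nonneg _) (Finset.mem_univ i)
    calc s * |f.co cen i - f.co x i| ≤ s * M := by gcongr
      _ ≤ 1 := by
        rw [hs, div_mul_eq_mul_div, one_mul, div_le_one (by positivity)]; linarith
  obtain ⟨z, ρ, hV1, hV2⟩ := exists_alc f x' (hg.g3 x' hx'F)
  set V := alc f z ρ with hV
  have hVF : ∀ v ∈ V, toR v ∈ F ∧ mf D.Q (toR v) = F := by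
    intro v hv
    obtain ⟨n, rfl, hn⟩ := hV2 v hv
    have h1 := hg.g4 p hp (fun i => (n i : ℝ) - f.co x i) (fun i => by
      have h2 := abs_le.1 (hn i)
      have h3 := abs_le.1 (hco i)
      rw [abs_le]
      constructor <;> linarith) (toR (f.pt n)) (by
      rw [← hxe, f.toR_pt]
      have h3 := hg.g3 x hxF
      calc toR f.o + ∑ i, (n i : ℝ) • toR (f.b i)
          = (toR f.o + ∑ i, f.co x i • toR (f.b i)) + ∑ i, ((n i : ℝ) - f.co x i) • toR (f.b i) := by
            rw [add_assoc, ← Finset.sum_add_distrib]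
            congr 1
            refine Finset.sum_congr rfl fun i _ => ?_
            rw [← add_smul]
            congr 1
            ring
        _ = x + ∑ i, ((n i : ℝ) - f.co x i) • toR (f.b i) := by rw [← h3])
    exact ⟨h1.1, D.mf_eq hF h1.1 h1.2⟩
  have hVA : V ⊆ D.A := fun v hv => (D.hA v).2 (hF.ext.subset (hVF v hv).1)
  have hVn : V.Nonempty := by
    rw [Finset.nonempty_iff_ne_empty]
    intro h0
    rw [h0] at hV1
    unfold hull at hV1
    simp at hV1
  have hcand : D.Cand F V := ⟨hVA, hVn, fun v hv => (hVF v hv).2, interp_alc f z ρ,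
    alc_cert f z ρ⟩
  have hc := hcell F hF V hcand
  -- the representation of `x'`
  set l' : (Fin d → ℤ) → ℝ := fun a => (1 - s) * l a + s * (if a ∈ SF then 1 / m else 0) with hl'
  have hl'pos : ∀ a ∈ SF, 0 < l' a := by
    intro a ha
    simp only [hl', if_pos ha]
    have h1 := mul_nonneg (sub_nonneg.2 hs1) (hl.nonneg a)
    have h2 : 0 < s * (1 / m) := by positivity
    linarith
  have hrep : IsRep S x' l' := by
    refine ⟨?_, ?_, ?_, ?_⟩
    · intro a
      simp only [hl']
      have h1 := mul_nonneg (sub_nonneg.2 hs1) (hl.nonneg a)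
      have h2 : 0 ≤ s * (if a ∈ SF then 1 / m else 0) := by
        split_ifs <;> positivity
      linarith
    · intro a ha
      have h1 : a ∉ SF := fun h => ha (hSFS h)
      simp only [hl', if_neg h1, hl.off a ha]
      ring
    · simp only [hl']
      rw [Finset.sum_add_distrib, ← Finset.mul_sum, ← Finset.mul_sum, hl.one,
        Finset.sum_ite_mem, Finset.inter_eq_right.2 hSFS, hsum1]
      ring
    · simp only [hl', add_smul, mul_smul]
      rw [Finset.sum_add_distrib, ← Finset.smul_sum, ← Finset.smul_sum, hl.eq, hx', hcen]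
      congr 2
      simp only [ite_smul, zero_smul]
      rw [Finset.sum_ite_mem, Finset.inter_eq_right.2 hSFS]
  have hopt := cell_opt hS hrep
  have hsupp : ∀ a, l' a ≠ 0 → a ∈ V := by
    refine hc.support hVA hV1 hopt fun a ha => ?_
    have h1 := D.support_face hF hSA hx'F hrep a ha
    exact Finset.mem_filter.2 ⟨hSA h1.1, h1.2⟩
  refine ⟨V, ?_, ?_, fun u hu => (hVF u hu).1, fun a ha haF => ?_⟩
  · rw [← hg.g5]
    exact alc_unimodular f z ρ
  · exact (alc_card f z ρ).trans (Nat.succ_le_succ f.k_le)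
  · exact hsupp a (hl'pos a (Finset.mem_filter.2 ⟨ha, haF⟩)).ne'

/-- all lattice points are vertices -/
theorem full {w : (Fin d → ℤ) → ℝ}
    (hcell : ∀ F, D.Face F → ∀ V, D.Cand F V → Cell (D.AF F) w V)
    {S : Finset (Fin d → ℤ)} (hS : S ∈ cells D.A w) {a : Fin d → ℤ} (ha : toR a ∈ hull S) :
    a ∈ S := by
  classical
  have hSA := (mem_cells.1 hS).1
  have haQ : toR a ∈ D.Q := by
    rw [← D.hull_A]; exact hull_subset hSA ha
  set F := mf D.Q (toR a) with hF
  have hFf : D.Face F := D.face_mf haQ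
  have haF : toR a ∈ F := self_mem_mf haQ
  have hg := D.good hFf
  obtain ⟨n0, hn0⟩ := hg.g2 a haF
  obtain ⟨L, c, h1, h2⟩ := tangent (D.fr F) n0
  have haA : a ∈ D.A := (D.hA a).2 haQ
  have hcand : D.Cand F {a} := by
    refine ⟨Finset.singleton_subset_iff.2 haA, Finset.singleton_nonempty a, ?_, ?_, L, c, ?_, ?_⟩
    · intro v hv
      rw [Finset.mem_singleton] at hv
      rw [hv]
    · intro v _
      refine ⟨0, 1, by simp, fun v' hv' hne => ?_⟩
      rename_i hv
      rw [Finset.mem_singleton] at hv hv'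
      exact absurd (hv'.trans hv.symm) hne
    · intro v hv
      rw [Finset.mem_singleton] at hv
      rw [hv, hn0]
      exact h1
    · intro n hn
      refine h2 n fun h => hn ?_
      rw [Finset.mem_singleton, h, hn0]
  have hc := hcell F hFf {a} hcand
  obtain ⟨l, hl⟩ := mem_hull_iff.1 ha
  have hopt := cell_opt hS hl
  have hsupp := hc.support (Finset.singleton_subset_iff.2 haA)
    (subset_convexHull ℝ _ ⟨a, by simp, rfl⟩) hopt fun b hb => by
      have h3 := D.support_face hFf hSA haF hl b hb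
      exact Finset.mem_filter.2 ⟨hSA h3.1, h3.2⟩
  by_contra haS
  have h4 := hl.one
  rw [Finset.sum_eq_zero fun b hb => by
    by_contra h5
    have := Finset.mem_singleton.1 (hsupp b h5)
    exact haS (this ▸ hb)] at h4
  norm_num at h4

end Data

end Pool.MP_554263_co.H47
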