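import Pool.Agent.W_554263_h47.P

/-!
Regularity and volumes.
-/

set_option autoImplicit false

namespace Pool.MP_554263_co.H47

open MeasureTheory

variable {d : ℕ}

/-- the cells are lower faces: the triangulation is regular -/
theorem cells_regular {A S : Finset (Fin d → ℤ)} {w : (Fin d → ℤ) → ℝ} (hu : Uniq A w)
    (hS : S ∈ cells A w) : Cell A w S := by
  classical
  obtain ⟨hSA, hcard, x, l, hl, hls⟩ := mem_cells.1 hS
  have hind := support_indep hu hl (S := S) fun a ha => (hls a).2 ha
  have htot : affineSpan ℝ (Set.range fun s : S => toR (s : Fin d → ℤ)) = ⊤ := by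
    rw [hind.affineSpan_eq_top_iff_card_eq_finrank_add_one, Fintype.card_coe, hcard,
      Module.finrank_fin_fun]
  let B : AffineBasis S ℝ (Fin d → ℝ) := ⟨fun s : S => toR (s : Fin d → ℤ), hind, htot⟩
  have hB : ∀ s : S, B s = toR (s : Fin d → ℤ) := fun s => rfl
  let g : (Fin d → ℝ) →ᵃ[ℝ] ℝ := ∑ s : S, w s • B.coord s
  have hg : ∀ y, g y = ∑ s : S, w s * B.coord s y := by
    intro y
    have : ∀ (T : Finset S), (∑ s ∈ T, w s • B.coord s : (Fin d → ℝ) →ᵃ[ℝ] ℝ) y =
        ∑ s ∈ T, w s * B.coord s y := by
      intro T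
      induction T using Finset.induction_on with
      | empty => simp
      | insert a T ha ih =>
        rw [Finset.sum_insert ha, Finset.sum_insert ha, ← ih]
        rfl
    exact this Finset.univ
  have hdec : ∀ y, g y = g.linear y + g 0 := by
    intro y
    have := congrFun g.decomp y
    simpa using this
  refine ⟨g.linear, g 0, ?_, ?_⟩
  · intro v hv
    rw [← hdec, hg, Finset.sum_eq_single ⟨v, hv⟩]
    · have : B.coord ⟨v, hv⟩ (toR v) = 1 := by
        have := B.coord_apply_eq ⟨v, hv⟩
        rwa [hB] at this
      rw [this, mul_one]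
    · intro s _ hs
      have : B.coord s (toR v) = 0 := by
        have := B.coord_apply_ne (i := s) (j := ⟨v, hv⟩) hs
        rwa [hB] at this
      rw [this, mul_zero]
    · intro h; exact absurd (Finset.mem_univ _) h
  · intro a ha haS
    rw [← hdec, hg]
    set β : S → ℝ := fun s => B.coord s (toR a) with hβ
    have hβ1 : ∑ s, β s = 1 := B.sum_coord_apply_eq_one _
    have hβ2 : ∑ s, β s • toR (s : Fin d → ℤ) = toR a := B.linear_combination_coord_eq_self _
    set m : (Fin d → ℤ) → ℝ := fun b => if h : b ∈ S then -β ⟨b, h⟩ else 0 with hm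
    have hm0 : ∀ b, b ∉ S → m b = 0 := fun b hb => by simp [hm, hb]
    have hms : ∀ s : S, m s = -β s := fun s => by simp [hm]
    obtain ⟨ε, hε, hle⟩ := exists_step hl.rep.nonneg hl.rep.off
      (fun b hb => hm0 b fun h => (hls b).2 h hb)
    set δ : (Fin d → ℤ) → ℝ := fun b => if b = a then 1 else 0 with hδ
    have hsumm : ∀ (G : (Fin d → ℤ) → ℝ), ∑ b ∈ A, m b * G b = -∑ s : S, β s * G s := by
      intro G
      rw [← Finset.sum_subset hSA fun b _ hb => by rw [hm0 b hb, zero_mul],
        ← Finset.sum_coe_sort S, ← Finset.sum_neg_distrib]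
      exact Finset.sum_congr rfl fun s _ => by rw [hms s]; ring
    have hrep : IsRep A x (fun b => l b + ε * (m b + δ b)) := by
      refine hl.rep.add ?_ ?_ ?_ ?_
      · intro b hb
        have h1 : b ∉ S := fun h => hb (hSA h)
        have h2 : b ≠ a := fun h => hb (h ▸ ha)
        simp [hm0 b h1, hδ, h2]
      · rw [← Finset.mul_sum, Finset.sum_add_distrib]
        have h1 := hsumm fun _ => 1
        simp only [mul_one] at h1
        rw [h1, hβ1, hδ, Finset.sum_ite_eq' A a, if_pos ha]
        ring
      · have h1 : ∀ i : Fin d, (∑ b ∈ A, (ε * (m b + δ b)) • toR b) i = 0 := by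
          intro i
          rw [Finset.sum_apply]
          have h2 : ∑ b ∈ A, ((ε * (m b + δ b)) • toR b) i =
              ε * (∑ b ∈ A, m b * toR b i + ∑ b ∈ A, δ b * toR b i) := by
            rw [← Finset.sum_add_distrib, Finset.mul_sum]
            refine Finset.sum_congr rfl fun b _ => ?_
            simp only [Pi.smul_apply, smul_eq_mul]
            ring
          rw [h2, hsumm fun b => toR b i]
          have h3 := congrFun hβ2 i
          rw [Finset.sum_apply] at h3
          have h4 : ∑ s : S, β s * toR (s : Fin d → ℤ) i = toR a i := h3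
          rw [h4]
          have h5 : ∑ b ∈ A, δ b * toR b i = toR a i := by
            simp only [hδ, ite_mul, one_mul, zero_mul]
            rw [Finset.sum_ite_eq' A a, if_pos ha]
          rw [h5]; ring
        funext i
        exact h1 i
      · intro b
        have h1 := abs_le.1 (hle b)
        have h2 : 0 ≤ δ b := by
          simp only [hδ]; split_ifs <;> norm_num
        nlinarith [mul_nonneg hε.le h2]
    have hcost : cost A w (fun b => l b + ε * (m b + δ b)) =
        cost A w l + ε * (w a - ∑ s : S, w s * β s) := by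
      rw [cost_add, cost_smul]
      congr 2
      unfold cost
      simp only [add_mul]
      rw [Finset.sum_add_distrib, hsumm w]
      have h5 : ∑ b ∈ A, δ b * w b = w a := by
        simp only [hδ, ite_mul, one_mul, zero_mul]
        rw [Finset.sum_ite_eq' A a, if_pos ha]
      rw [h5]
      have h6 : ∑ s : S, w s * β s = ∑ s : S, β s * w s :=
        Finset.sum_congr rfl fun s _ => mul_comm _ _
      rw [h6]; ring
    have h1 := hl.le _ hrep
    rw [hcost] at h1
    have h2 : 0 ≤ w a - ∑ s : S, w s * β s := by
      by_contra hcon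
      push Not at hcon
      nlinarith
    rcases lt_or_eq_of_le h2 with h3 | h3
    · linarith
    · exfalso
      have hopt : IsOpt A w x (fun b => l b + ε * (m b + δ b)) := by
        refine ⟨hrep, fun m' hm' => ?_⟩
        rw [hcost, ← h3, mul_zero, add_zero]
        exact hl.le m' hm'
      have h4 := congrFun (hu x _ _ hl hopt) a
      have h5 : l a = 0 := by
        by_contra h
        exact haS ((hls a).1 h)
      have h6 : l a = l a + ε * (m a + δ a) := h4
      rw [h5, hm0 a haS] at h6
      simp [hδ] at h6
      exact hε.ne' h6.symm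

theorem core_eq (c : ℕ) (F : Set (Fin d → ℝ)) (g : Fin d → ℝ) :
    core c F g = AffineMap.homothety g (1 - (K0 d : ℝ) / c) '' F := by
  ext x
  constructor
  · rintro ⟨p, hp, rfl⟩
    refine ⟨p, hp, ?_⟩
    rw [AffineMap.homothety_apply, vsub_eq_sub, vadd_eq_add]
    funext i
    simp only [Pi.add_apply, Pi.smul_apply, Pi.sub_apply, smul_eq_mul]
    ring
  · rintro ⟨p, hp, rfl⟩
    refine ⟨p, hp, ?_⟩
    rw [AffineMap.homothety_apply, vsub_eq_sub, vadd_eq_add]
    funext i
    simp only [Pi.add_apply, Pi.smul_apply, Pi.sub_apply, smul_eq_mul]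
    ring

theorem volume_core {c : ℕ} (hc : K0 d < c) (F : Set (Fin d → ℝ)) (g : Fin d → ℝ) :
    volume (core c F g) = ENNReal.ofReal ((1 - (K0 d : ℝ) / c) ^ d) * volume F := by
  rw [core_eq, Measure.addHaar_image_homothety, Module.finrank_fin_fun, abs_of_nonneg]
  apply pow_nonneg
  have hcR : (0 : ℝ) < c := by
    have : 0 < c := by omega
    exact_mod_cast this
  rw [sub_nonneg, div_le_one hcR]
  exact_mod_cast hc.le

end Pool.MP_554263_co.H47
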